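import Mathlib

namespace Pool.Agent.Lib.MP_351138_al

open Module TensorProduct

section

variable {F : Type*} [Field F] {I ι c : Type} [Fintype I] [Fintype ι] [Fintype c]

/-- The bilinear form obtained from a trilinear form by inserting `u` in each of the three
places. -/
noncomputable def polar {V : Type*} [AddCommGroup V] [Module F V]
    (φ : V →ₗ[F] V →ₗ[F] V →ₗ[F] F) (u : V) : V →ₗ[F] V →ₗ[F] F :=
  LinearMap.mk₂ F (fun y y' => φ y y' u + φ y u y' + φ u y y')
    (by intro a b c; simp only [map_add, LinearMap.add_apply]; ring)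
    (by intro t a b; simp only [map_smul, LinearMap.smul_apply, smul_eq_mul]; ring)
    (by intro a b c; simp only [map_add, LinearMap.add_apply]; ring)
    (by intro t a b; simp only [map_smul, LinearMap.smul_apply, smul_eq_mul]; ring)

@[simp] theorem polar_apply {V : Type*} [AddCommGroup V] [Module F V]
    (φ : V →ₗ[F] V →ₗ[F] V →ₗ[F] F) (u y y' : V) :
    polar φ u y y' = φ y y' u + φ y u y' + φ u y y' := rfl

/-- If the weighted sums of `x_s(e) x_s(j) y_s` vanish then so does every trilinear
expression in `x_s, x_s, y_s`. -/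
theorem kill {V G : Type*} [AddCommGroup V] [Module F V] [AddCommGroup G] [Module F G]
    (lam : c → F) (x : c → ι → F) (y : c → V)
    (hy : ∀ e j, ∑ s, (lam s * x s e * x s j) • y s = 0)
    (ψ : (ι → F) →ₗ[F] (ι → F) →ₗ[F] V →ₗ[F] G) :
    ∑ s, lam s • ψ (x s) (x s) (y s) = 0 := by
  classical
  have hx : ∀ s, x s = ∑ e, x s e • (Pi.single e (1 : F) : ι → F) := by
    intro s
    ext i
    simp [Finset.sum_apply, Pi.single_apply]
  have h1 : ∀ s, ψ (x s) (x s) (y s) = ∑ e, ∑ j, (x s e * x s j) •
      ψ (Pi.single e 1) (Pi.single j 1) (y s) := by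
    intro s
    conv_lhs => rw [hx s]
    simp only [map_sum, map_smul, LinearMap.sum_apply, LinearMap.smul_apply]
    rw [Finset.sum_comm]
    apply Finset.sum_congr rfl
    intro e _
    rw [Finset.smul_sum]
    apply Finset.sum_congr rfl
    intro j _
    rw [smul_smul, mul_comm]
  simp only [h1]
  simp only [Finset.smul_sum]
  rw [Finset.sum_comm]
  apply Finset.sum_eq_zero
  intro e _
  rw [Finset.sum_comm]
  apply Finset.sum_eq_zero
  intro j _
  have := congrArg (ψ (Pi.single e 1) (Pi.single j 1)) (hy e j)
  rw [map_zero, map_sum] at this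
  rw [← this]
  apply Finset.sum_congr rfl
  intro s _
  rw [map_smul, smul_smul, mul_assoc]


/-- The analysis of one class of the partition. -/
theorem class_lemma [DecidableEq I] [Nonempty c]
    (lam : c → F) (w : c → I → F) (x : c → ι → F) (hx0 : ∀ s, x s ≠ 0)
    (hw : ∀ e j, ∑ s, (lam s * x s e * x s j) • w s = 0)
    (hx : ∀ e j, ∑ s, (lam s * x s e * x s j) • x s = 0) :
    ∃ (k n : ℕ) (Vc : Submodule F (I → F)) (y : c → I → F),
      finrank F (Submodule.span F (Set.range (fun s => (Sum.elim (w s) (x s) : I ⊕ ι → F)))) = k + n ∧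
      1 ≤ k ∧
      finrank F (Submodule.span F (Set.range (fun e =>
        ∑ s, (lam s * x s e) • (w s ⊗ₜ[F] w s)))) ≤ k ∧
      finrank F Vc = n ∧ (∀ s, y s ∈ Vc) ∧
      (∀ e, ∑ s, (lam s * x s e) • (w s ⊗ₜ[F] w s) = ∑ s, (lam s * x s e) • (y s ⊗ₜ[F] y s)) ∧
      (∀ φ : (I → F) →ₗ[F] (I → F) →ₗ[F] (I → F) →ₗ[F] F,
        (∀ u e, TensorProduct.lift (polar φ u) (∑ s, (lam s * x s e) • (w s ⊗ₜ[F] w s)) = 0) →
        ∑ s, lam s * φ (w s) (w s) (w s) = ∑ s, lam s * φ (y s) (y s) (y s)) := by
  classical
  set L : Submodule F (I ⊕ ι → F) :=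
    Submodule.span F (Set.range (fun s => (Sum.elim (w s) (x s) : I ⊕ ι → F))) with hL
  let pV : (I ⊕ ι → F) →ₗ[F] (I → F) := LinearMap.funLeft F F Sum.inl
  let pE : (I ⊕ ι → F) →ₗ[F] (ι → F) := LinearMap.funLeft F F Sum.inr
  let jV : (I → F) →ₗ[F] (I ⊕ ι → F) :=
    { toFun := fun v => Sum.elim v 0
      map_add' := by
        intro u v
        ext (i | i) <;> simp
      map_smul' := by
        intro t v
        ext (i | i) <;> simp }
  have hpV : ∀ p i, pV p i = p (Sum.inl i) := fun p i => rfl
  have hpE : ∀ p i, pE p i = p (Sum.inr i) := fun p i => rfl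
  have hjl : ∀ v i, jV v (Sum.inl i) = v i := fun v i => rfl
  have hjr : ∀ v i, jV v (Sum.inr i) = 0 := fun v i => rfl
  let Vc : Submodule F (I → F) := L.comap jV
  let g : L →ₗ[F] (ι → F) := pE.domRestrict L
  have hg : ∀ p, g p = pE p.1 := fun p => rfl
  -- the range of `g`
  have hrange : LinearMap.range g = Submodule.span F (Set.range x) := by
    rw [LinearMap.range_domRestrict, hL, Submodule.map_span, ← Set.range_comp]
    rfl
  -- the kernel of `g`
  have hjinj : Function.Injective jV := by
    rw [injective_iff_map_eq_zero]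
    intro v hv
    ext i
    exact congrFun hv (Sum.inl i)
  have hker : finrank F (LinearMap.ker g) = finrank F Vc := by
    have h1 : (LinearMap.ker g).map L.subtype = Vc.map jV := by
      ext p
      simp only [Submodule.mem_map, LinearMap.mem_ker]
      constructor
      · rintro ⟨q, hq, rfl⟩
        refine ⟨pV q.1, ?_, ?_⟩
        · change jV (pV q.1) ∈ L
          have : jV (pV q.1) = q.1 := by
            ext (i | i)
            · rfl
            · rw [hjr]
              exact (congrFun hq i).symm
          rw [this]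
          exact q.2
        · ext (i | i)
          · rfl
          · rw [hjr]
            exact (congrFun hq i).symm
      · rintro ⟨v, hv, rfl⟩
        exact ⟨⟨jV v, hv⟩, by ext i; rfl, rfl⟩
    have h2 := (Submodule.equivMapOfInjective L.subtype L.subtype_injective
      (LinearMap.ker g)).finrank_eq
    have h3 := (Submodule.equivMapOfInjective jV hjinj Vc).finrank_eq
    rw [h2, h3, h1]
  have hdim := LinearMap.finrank_range_add_finrank_ker g
  -- the section
  obtain ⟨ρ, hρ⟩ := g.rangeRestrict.exists_rightInverse_of_surjective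
    (LinearMap.range_eq_top.2 g.surjective_rangeRestrict)
  obtain ⟨σ, hσ⟩ := LinearMap.exists_extend (pV.comp (L.subtype.comp ρ))
  have hsec : ∀ p ∈ L, pV p - σ (pE p) ∈ Vc := by
    intro p hp
    have he : pE p ∈ LinearMap.range g := ⟨⟨p, hp⟩, rfl⟩
    have h1 : σ (pE p) = pV (ρ ⟨pE p, he⟩).1 := by
      have := LinearMap.congr_fun hσ ⟨pE p, he⟩
      exact this
    have h2 : pE (ρ ⟨pE p, he⟩).1 = pE p := by
      have := LinearMap.congr_fun hρ ⟨pE p, he⟩
      exact congrArg Subtype.val this
    change jV (pV p - σ (pE p)) ∈ L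
    have h3 : jV (pV p - σ (pE p)) = p - (ρ ⟨pE p, he⟩).1 := by
      rw [h1]
      ext (i | i)
      · rfl
      · rw [hjr, Pi.sub_apply]
        have := congrFun h2 i
        rw [hpE, hpE] at this
        rw [this, sub_self]
    rw [h3]
    exact L.sub_mem hp (ρ ⟨pE p, he⟩).2
  let y : c → I → F := fun s => w s - σ (x s)
  have hyV : ∀ s, y s ∈ Vc := by
    intro s
    have := hsec _ (Submodule.subset_span (s := Set.range
      (fun s => (Sum.elim (w s) (x s) : I ⊕ ι → F))) ⟨s, rfl⟩)
    exact this
  have hwy : ∀ s, w s = y s + σ (x s) := fun s => by simp [y]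
  have hy : ∀ e j, ∑ s, (lam s * x s e * x s j) • y s = 0 := by
    intro e j
    have h1 := congrArg σ (hx e j)
    rw [map_sum, map_zero] at h1
    simp only [map_smul] at h1
    simp only [y, smul_sub]
    rw [Finset.sum_sub_distrib, hw e j, h1, sub_zero]
  -- the quadratic parts
  have hQ : ∀ e, ∑ s, (lam s * x s e) • (w s ⊗ₜ[F] w s) =
      ∑ s, (lam s * x s e) • (y s ⊗ₜ[F] y s) := by
    intro e
    have h1 : ∑ s, lam s • (x s e • (y s ⊗ₜ[F] σ (x s))) = 0 :=
      kill lam x y hy (LinearMap.mk₂ F (fun (a b : ι → F) =>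
        a e • ((TensorProduct.mk F (I → F) (I → F)).flip (σ b)))
        (by intro a b c; simp only [Pi.add_apply, add_smul])
        (by intro t a b; simp only [Pi.smul_apply, smul_eq_mul, mul_smul])
        (by intro a b c; simp only [map_add, smul_add])
        (by intro t a b; simp only [map_smul]; rw [smul_comm]))
    have h2 : ∑ s, lam s • (x s e • (σ (x s) ⊗ₜ[F] y s)) = 0 :=
      kill lam x y hy (LinearMap.mk₂ F (fun (a b : ι → F) =>
        a e • ((TensorProduct.mk F (I → F) (I → F)) (σ b)))
        (by intro a b c; simp only [Pi.add_apply, add_smul])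
        (by intro t a b; simp only [Pi.smul_apply, smul_eq_mul, mul_smul])
        (by intro a b c; simp only [map_add, smul_add])
        (by intro t a b; simp only [map_smul]; rw [smul_comm]))
    have h3 : ∑ s, lam s • (x s e • (σ (x s) ⊗ₜ[F] σ (x s))) = 0 :=
      kill lam x x hx (LinearMap.mk₂ F (fun (a b : ι → F) =>
        a e • ((TensorProduct.mk F (I → F) (I → F)) (σ b)).comp σ)
        (by intro a b c; simp only [Pi.add_apply, add_smul])
        (by intro t a b; simp only [Pi.smul_apply, smul_eq_mul, mul_smul])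
        (by intro a b c; simp only [map_add, LinearMap.add_comp, smul_add])
        (by intro t a b; simp only [map_smul, LinearMap.smul_comp]; rw [smul_comm]))
    have h4 : ∀ s, (lam s * x s e) • (w s ⊗ₜ[F] w s) = (lam s * x s e) • (y s ⊗ₜ[F] y s)
        + lam s • (x s e • (y s ⊗ₜ[F] σ (x s))) + lam s • (x s e • (σ (x s) ⊗ₜ[F] y s))
        + lam s • (x s e • (σ (x s) ⊗ₜ[F] σ (x s))) := by
      intro s
      rw [hwy s]
      simp only [TensorProduct.add_tmul, TensorProduct.tmul_add, smul_add, smul_smul]
      abel
    simp only [h4, Finset.sum_add_distrib]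
    rw [h1, h2, h3]
    simp only [add_zero]
  refine ⟨finrank F (LinearMap.range g), finrank F (LinearMap.ker g), Vc, y, hdim.symm, ?_, ?_,
    hker.symm, hyV, hQ, ?_⟩
  · -- `1 ≤ k`
    rw [hrange]
    obtain ⟨s⟩ := ‹Nonempty c›
    have : Nontrivial (Submodule.span F (Set.range x)) := by
      refine ⟨⟨x s, Submodule.subset_span ⟨s, rfl⟩⟩, 0, ?_⟩
      intro h
      exact hx0 s (congrArg Subtype.val h)
    exact Module.finrank_pos
  · -- `r ≤ k`
    rw [hrange]
    let X : Matrix c ι F := Matrix.of x
    have h1 : finrank F (Submodule.span F (Set.range x)) = X.rank :=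
      (Matrix.rank_eq_finrank_span_row X).symm
    rw [h1, Matrix.rank]
    let Γ : (c → F) →ₗ[F] ((I → F) ⊗[F] (I → F)) :=
      Fintype.linearCombination F (fun s => lam s • (w s ⊗ₜ[F] w s))
    refine le_trans ?_ (Submodule.finrank_map_le Γ (LinearMap.range X.mulVecLin))
    apply Submodule.finrank_mono
    rw [Submodule.span_le]
    rintro _ ⟨e, rfl⟩
    refine ⟨X.mulVecLin (Pi.single e 1), ⟨_, rfl⟩, ?_⟩
    simp only [Γ, Fintype.linearCombination_apply, Matrix.mulVecLin_apply, Matrix.mulVec_single,
      X, smul_smul]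
    apply Finset.sum_congr rfl
    intro s _
    simp [mul_comm]
  · -- the cubic parts
    intro φ hφ
    have hone : ∑ s, lam s * polar φ (σ (x s)) (y s) (y s) = 0 := by
      have h1 : ∀ s, lam s * polar φ (σ (x s)) (y s) (y s) = ∑ e, (lam s * x s e) *
          polar φ (σ (Pi.single e 1)) (y s) (y s) := by
        intro s
        have hxs : x s = ∑ e, x s e • (Pi.single e (1 : F) : ι → F) := by
          ext i
          simp [Finset.sum_apply, Pi.single_apply]
        conv_lhs => rw [hxs]
        simp only [map_sum, map_smul, polar_apply, LinearMap.sum_apply, LinearMap.smul_apply,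
          smul_eq_mul]
        rw [← Finset.sum_add_distrib, ← Finset.sum_add_distrib, Finset.mul_sum]
        apply Finset.sum_congr rfl
        intro e _
        ring
      simp only [h1]
      rw [Finset.sum_comm]
      apply Finset.sum_eq_zero
      intro e _
      have h2 := hφ (σ (Pi.single e 1)) e
      rw [hQ e, map_sum] at h2
      rw [← h2]
      apply Finset.sum_congr rfl
      intro s _
      rw [map_smul, TensorProduct.lift.tmul, smul_eq_mul]
    have h1 : ∑ s, lam s • φ (σ (x s)) (σ (x s)) (y s) = 0 :=
      kill lam x y hy ((LinearMap.compl₁₂ φ σ σ))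
    have h2 : ∑ s, lam s • φ (σ (x s)) (y s) (σ (x s)) = 0 :=
      kill lam x y hy (LinearMap.mk₂ F (fun (a b : ι → F) => (φ (σ a)).flip (σ b))
        (by intro a b c; refine LinearMap.ext fun v => ?_; simp only [map_add, LinearMap.add_apply,
          LinearMap.flip_apply])
        (by intro t a b; refine LinearMap.ext fun v => ?_; simp only [map_smul, LinearMap.smul_apply,
          LinearMap.flip_apply])
        (by intro a b c; refine LinearMap.ext fun v => ?_; simp only [map_add, LinearMap.add_apply,
          LinearMap.flip_apply])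
        (by intro t a b; refine LinearMap.ext fun v => ?_; simp only [map_smul, LinearMap.smul_apply,
          LinearMap.flip_apply]))
    have h3 : ∑ s, lam s • φ (y s) (σ (x s)) (σ (x s)) = 0 :=
      kill lam x y hy (LinearMap.mk₂ F (fun (a b : ι → F) => ((φ.flip (σ a)).flip (σ b)))
        (by intro a b c; refine LinearMap.ext fun v => ?_; simp only [map_add, LinearMap.add_apply,
          LinearMap.flip_apply])
        (by intro t a b; refine LinearMap.ext fun v => ?_; simp only [map_smul, LinearMap.smul_apply,
          LinearMap.flip_apply])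
        (by intro a b c; refine LinearMap.ext fun v => ?_; simp only [map_add, LinearMap.add_apply,
          LinearMap.flip_apply])
        (by intro t a b; refine LinearMap.ext fun v => ?_; simp only [map_smul, LinearMap.smul_apply,
          LinearMap.flip_apply]))
    have h4 : ∑ s, lam s • φ (σ (x s)) (σ (x s)) (σ (x s)) = 0 := by
      have := kill lam x (fun s => σ (x s)) (by
        intro e j
        have := congrArg σ (hx e j)
        rw [map_sum, map_zero] at this
        rw [← this]
        apply Finset.sum_congr rfl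
        intro s _
        rw [map_smul]) ((LinearMap.compl₁₂ φ σ σ))
      exact this
    have h5 : ∀ s, lam s * φ (w s) (w s) (w s) = lam s * φ (y s) (y s) (y s)
        + lam s * polar φ (σ (x s)) (y s) (y s)
        + lam s • φ (σ (x s)) (σ (x s)) (y s)
        + lam s • φ (σ (x s)) (y s) (σ (x s))
        + lam s • φ (y s) (σ (x s)) (σ (x s))
        + lam s • φ (σ (x s)) (σ (x s)) (σ (x s)) := by
      intro s
      rw [hwy s]
      simp only [map_add, LinearMap.add_apply, polar_apply, smul_eq_mul]
      ring
    simp only [h5, Finset.sum_add_distrib]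
    rw [hone, h1, h2, h3, h4]
    simp only [add_zero]

end

end Pool.Agent.Lib.MP_351138_al
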