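import Mathlib

namespace Pool.Agent.Lib.MP_351138_al

open Module

/-- Over an infinite field, if `a * b` lies outside `B` for some `b ∈ B` and `B` contains an
everywhere nonzero vector, then `b` can be chosen everywhere nonzero. -/
theorem exists_unit_of_not_mem {K : Type*} [Field K] [Infinite K] {N : Type*} [Fintype N]
    (B : Submodule K (N → K)) (a : N → K) (u : N → K) (huB : u ∈ B) (hu : ∀ s, u s ≠ 0)
    (b : N → K) (hb : b ∈ B) (hab : a * b ∉ B) :
    ∃ e ∈ B, (∀ s, e s ≠ 0) ∧ a * e ∉ B := by
  classical
  by_cases hau : a * u ∈ B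
  · obtain ⟨t, ht⟩ := Infinite.exists_notMem_finset
      ((Finset.univ : Finset N).image (fun s => - (b s) / u s))
    refine ⟨b + t • u, B.add_mem hb (B.smul_mem t huB), ?_, ?_⟩
    · intro s hs
      apply ht
      rw [Finset.mem_image]
      refine ⟨s, Finset.mem_univ _, ?_⟩
      rw [div_eq_iff (hu s)]
      simp only [Pi.add_apply, Pi.smul_apply, smul_eq_mul] at hs
      linear_combination -hs
    · intro h
      apply hab
      have h2 : a * b = a * (b + t • u) - t • (a * u) := by
        rw [mul_add, mul_smul_comm]; abel
      rw [h2]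
      exact B.sub_mem h (B.smul_mem t hau)
  · exact ⟨u, huB, hu, hau⟩

/-- The interpolation step: if `B` is stable under multiplication by `A` and `1 ∈ A`, then `B` is
stable under the indicators of the classes of points separated by `A`. -/
theorem stable_of_mul_le {K : Type*} [Field K] {N : Type*} [Fintype N]
    (A B : Submodule K (N → K)) (hAB : A * B ≤ B) (r : Setoid N)
    (hr : ∀ s t, r s t ↔ ∀ a ∈ A, a s = a t) (s₀ : N) (w : N → K) (hw : w ∈ B)
    [DecidablePred (fun s => r s s₀)] :
    (fun s => if r s s₀ then w s else 0) ∈ B := by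
  classical
  have hsep : ∀ t : N, ∃ g : N → K, (∀ v ∈ B, g * v ∈ B) ∧
      (∀ s, r s s₀ → g s = 1) ∧ (¬ r t s₀ → g t = 0) := by
    intro t
    by_cases ht : r t s₀
    · exact ⟨1, fun v hv => by simpa using hv, fun s _ => rfl, fun h => absurd ht h⟩
    · have ht' := ht
      rw [hr] at ht'
      push Not at ht'
      obtain ⟨a, ha, hat⟩ := ht'
      have hne : a s₀ - a t ≠ 0 := sub_ne_zero.mpr (Ne.symm hat)
      refine ⟨(a s₀ - a t)⁻¹ • (a - a t • (1 : N → K)), ?_, ?_, ?_⟩
      · intro v hv
        have : ((a s₀ - a t)⁻¹ • (a - a t • (1 : N → K))) * v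
            = (a s₀ - a t)⁻¹ • (a * v - a t • v) := by
          rw [smul_mul_assoc, sub_mul, smul_mul_assoc, one_mul]
        rw [this]
        exact B.smul_mem _ (B.sub_mem (hAB (Submodule.mul_mem_mul ha hv)) (B.smul_mem _ hv))
      · intro s hs
        have := (hr s s₀).1 hs a ha
        simp only [Pi.smul_apply, Pi.sub_apply, Pi.one_apply, smul_eq_mul, mul_one]
        rw [this]
        field_simp
      · intro _
        simp
  choose g hgB hg1 hg0 using hsep
  have hprod : ∀ T : Finset N, (∏ t ∈ T, g t) * w ∈ B := by
    intro T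
    induction T using Finset.induction_on with
    | empty => simpa using hw
    | insert t T ht ih =>
      rw [Finset.prod_insert ht, mul_assoc]
      exact hgB t _ ih
  have := hprod Finset.univ
  convert this using 1
  ext s
  rw [Pi.mul_apply, Finset.prod_apply]
  by_cases hs : r s s₀
  · rw [if_pos hs, Finset.prod_eq_one, one_mul]
    intro t _
    exact hg1 t s hs
  · have h0 : (∏ t : N, g t s) = 0 := Finset.prod_eq_zero (Finset.mem_univ s) (hg0 s hs)
    rw [if_neg hs, h0, zero_mul]

/-- A Kneser-type theorem for products of linear codes over an infinite field. -/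
theorem kneser_lite {K : Type*} [Field K] [Infinite K] {N : Type} [Fintype N] :
    ∀ (n : ℕ) (A B : Submodule K (N → K)), finrank K A = n → (1 : N → K) ∈ A →
      (∃ u ∈ B, ∀ s, u s ≠ 0) →
      ∃ (C : Type) (_ : Fintype C) (_ : DecidableEq C) (cl : N → C) (W : Submodule K (N → K)),
        Function.Surjective cl ∧ B ≤ W ∧ W ≤ A * B ∧
        (∀ c, ∀ w ∈ W, (fun s => if cl s = c then w s else 0) ∈ W) ∧
        finrank K A + finrank K B ≤ finrank K W + Fintype.card C := by
  classical
  intro n
  induction n using Nat.strong_induction_on with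
  | _ n ih =>
  intro A B hn h1 hu
  by_cases hAB : A * B ≤ B
  · -- the stable case
    let r : Setoid N :=
      { r := fun s t => ∀ a ∈ A, a s = a t
        iseqv := ⟨fun s a _ => rfl, fun h a ha => (h a ha).symm,
          fun h h' a ha => (h a ha).trans (h' a ha)⟩ }
    have hr : ∀ s t, r s t ↔ ∀ a ∈ A, a s = a t := fun s t => Iff.rfl
    refine ⟨Quotient r, inferInstance, inferInstance, fun s => Quotient.mk r s, B,
      Quotient.mk_surjective, le_refl _, ?_, ?_, ?_⟩
    · intro b hb
      have := Submodule.mul_mem_mul h1 hb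
      rwa [one_mul] at this
    · intro c w hw
      obtain ⟨s₀, rfl⟩ := Quotient.mk_surjective c
      have := stable_of_mul_le A B hAB r hr s₀ w hw
      convert this using 1
      ext s
      simp only [Quotient.eq]
    · rw [add_comm]
      apply Nat.add_le_add_left
      let f : A →ₗ[K] (Quotient r → K) :=
        { toFun := fun a c => a.1 c.out
          map_add' := fun a b => rfl
          map_smul' := fun t a => rfl }
      have hf : Function.Injective f := by
        rw [injective_iff_map_eq_zero]
        intro a ha
        ext s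
        have h2 := congrFun ha (Quotient.mk r s)
        have h3 : r (Quotient.mk r s).out s := Quotient.mk_out s
        have h4 := (hr _ _).1 h3 a.1 a.2
        change a.1 s = 0
        rw [← h4]
        exact h2
      calc finrank K A ≤ finrank K (Quotient r → K) := LinearMap.finrank_le_finrank_of_injective hf
        _ = Fintype.card (Quotient r) := finrank_fintype_fun_eq_card K
  · -- the transform
    obtain ⟨u, huB, hu0⟩ := hu
    have : ∃ a ∈ A, ∃ b ∈ B, a * b ∉ B := by
      by_contra hcon
      push Not at hcon
      exact hAB (Submodule.mul_le.2 hcon)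
    obtain ⟨a, ha, b, hb, hab⟩ := this
    obtain ⟨e, heB, he0, hae⟩ := exists_unit_of_not_mem B a u huB hu0 b hb hab
    let m : (N → K) →ₗ[K] (N → K) := LinearMap.mulRight K e
    have hm : ∀ x, m x = x * e := fun x => rfl
    have hminj : Function.Injective m := by
      rw [injective_iff_map_eq_zero]
      intro x hx
      ext s
      have := congrFun hx s
      simp only [hm, Pi.mul_apply, Pi.zero_apply, mul_eq_zero] at this
      exact this.resolve_right (he0 s)
    let A' : Submodule K (N → K) := A ⊓ B.comap m
    let B' : Submodule K (N → K) := B ⊔ A.map m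
    have hA'A : A' ≤ A := inf_le_left
    have hBB' : B ≤ B' := le_sup_left
    have hmapA' : A'.map m = B ⊓ A.map m := by
      ext y
      simp only [Submodule.mem_map, Submodule.mem_inf, A', Submodule.mem_comap]
      constructor
      · rintro ⟨x, ⟨hx1, hx2⟩, rfl⟩
        exact ⟨hx2, x, hx1, rfl⟩
      · rintro ⟨hy, x, hx, rfl⟩
        exact ⟨x, ⟨hx, hy⟩, rfl⟩
    have hdim1 : finrank K A' = finrank K (B ⊓ A.map m : Submodule K (N → K)) := by
      rw [← hmapA']
      exact (Submodule.equivMapOfInjective m hminj A').finrank_eq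
    have hdim2 : finrank K (A.map m) = finrank K A :=
      (Submodule.equivMapOfInjective m hminj A).finrank_eq.symm
    have hdim3 := Submodule.finrank_sup_add_finrank_inf_eq B (A.map m)
    have hlt : finrank K A' < finrank K A := by
      apply Submodule.finrank_lt_finrank_of_lt
      refine lt_of_le_of_ne hA'A ?_
      intro hEq
      have : a ∈ A' := by rw [hEq]; exact ha
      exact hae this.2
    have h1' : (1 : N → K) ∈ A' := by
      refine ⟨h1, ?_⟩
      change m 1 ∈ B
      rw [hm, one_mul]
      exact heB
    obtain ⟨C, i1, i2, cl, W, hcl, hBW, hWAB, hst, hdim⟩ :=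
      ih (finrank K A') (hn ▸ hlt) A' B' rfl h1' ⟨u, hBB' huB, hu0⟩
    refine ⟨C, i1, i2, cl, W, hcl, hBB'.trans hBW, hWAB.trans ?_, hst, ?_⟩
    · rw [Submodule.mul_le]
      rintro x ⟨hxA, hxB⟩ y hy
      obtain ⟨y1, hy1, y2, hy2, rfl⟩ := Submodule.mem_sup.1 hy
      obtain ⟨z, hz, rfl⟩ := hy2
      rw [mul_add]
      refine Submodule.add_mem _ (Submodule.mul_mem_mul hxA hy1) ?_
      have : x * m z = z * m x := by
        rw [hm, hm]; ring
      rw [this]
      exact Submodule.mul_mem_mul hz hxB
    · have : finrank K A' + finrank K B' = finrank K A + finrank K B := by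
        rw [hdim1]
        change finrank K (B ⊓ A.map m : Submodule K (N → K)) +
          finrank K (B ⊔ A.map m : Submodule K (N → K)) = _
        omega
      omega

end Pool.Agent.Lib.MP_351138_al
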