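import Mathlib
import Pool.Agent.Lib.MP_351138_al.Kneser

namespace Pool.Agent.Lib.MP_351138_al

open Module

/-- Linear independence of coordinate vectors is preserved by extension of the field. -/
theorem linearIndependent_ext {F K : Type*} [Field F] [Field K] [Algebra F K] {J Z : Type*}
    [Fintype J] [Fintype Z] (v : J → Z → F) (h : LinearIndependent F v) :
    LinearIndependent K (fun j z => algebraMap F K (v j z)) := by
  classical
  have hinj : Function.Injective (Fintype.linearCombination F v) := by
    have := linearIndependent_iff_injective_fintypeLinearCombination.1 h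
    exact this
  obtain ⟨g, hg⟩ := (Fintype.linearCombination F v).exists_leftInverse_of_injective
    (LinearMap.ker_eq_bot.2 hinj)
  rw [Fintype.linearIndependent_iff]
  intro c hc j'
  have hgv : ∀ j, g (v j) = Pi.single j 1 := by
    intro j
    have := LinearMap.congr_fun hg (Pi.single j 1)
    simp only [LinearMap.comp_apply, Fintype.linearCombination_apply_single, one_smul,
      LinearMap.id_apply] at this
    exact this
  have hgv' : ∀ j, ∑ z, v j z * g (Pi.single z 1) j' = if j = j' then 1 else 0 := by
    intro j
    have h1 : v j = ∑ z, v j z • (Pi.single z (1 : F) : Z → F) := by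
      ext z
      simp [Finset.sum_apply, Pi.single_apply]
    have h2 := congrFun (hgv j) j'
    rw [h1, map_sum] at h2
    simp only [map_smul, Finset.sum_apply, Pi.smul_apply, smul_eq_mul] at h2
    rw [h2, Pi.single_apply]
    simp only [eq_comm]
  have hz : ∀ z, ∑ j, c j * algebraMap F K (v j z) = 0 := by
    intro z
    have := congrFun hc z
    simpa [Finset.sum_apply] using this
  calc c j' = ∑ j, c j * algebraMap F K (if j = j' then 1 else 0) := by simp
    _ = ∑ j, c j * algebraMap F K (∑ z, v j z * g (Pi.single z 1) j') := by
        simp only [hgv']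
    _ = ∑ z, (∑ j, c j * algebraMap F K (v j z)) * algebraMap F K (g (Pi.single z 1) j') := by
        simp only [map_sum, map_mul, Finset.mul_sum, Finset.sum_mul]
        rw [Finset.sum_comm]
        simp only [mul_assoc]
    _ = 0 := by simp [hz]

theorem finrank_span_ext_le {F K : Type*} [Field F] [Field K] [Algebra F K] {J Z : Type*}
    [Fintype J] [Fintype Z] (v : J → Z → F) :
    finrank F (Submodule.span F (Set.range v)) ≤
      finrank K (Submodule.span K (Set.range (fun j z => algebraMap F K (v j z)))) := by
  classical
  obtain ⟨κ, a, ha, hspan, hli⟩ := exists_linearIndependent' F v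
  have : Finite κ := Finite.of_injective a ha
  have := Fintype.ofFinite κ
  have h1 : Fintype.card κ = finrank F (Submodule.span F (Set.range v)) := by
    rw [← hspan]
    exact (finrank_span_eq_card hli).symm
  have h2 := linearIndependent_ext (K := K) (v ∘ a) hli
  have h3 := finrank_span_eq_card h2
  rw [← h1, ← h3]
  apply Submodule.finrank_mono
  apply Submodule.span_mono
  rintro _ ⟨j, rfl⟩
  exact ⟨a j, rfl⟩

/-- For every field `F` and finite `ι` there are an infinite extension field `K` and a family of
elements of `K` indexed by `ι` which is linearly independent over `F`. -/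
theorem exists_generic (F : Type*) [Field F] (ι : Type*) [Fintype ι] :
    ∃ θ : ι → FractionRing (Polynomial F), LinearIndependent F θ := by
  classical
  let e := Fintype.equivFin ι
  have h1 : LinearIndependent F (fun n : ℕ => (Polynomial.X ^ n : Polynomial F)) := by
    have := (Polynomial.basisMonomials F).linearIndependent
    have h : (fun n : ℕ => (Polynomial.X ^ n : Polynomial F)) =
        (Polynomial.basisMonomials F : ℕ → Polynomial F) := by
      funext n
      simp [Polynomial.coe_basisMonomials, Polynomial.X_pow_eq_monomial]
    rw [h]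
    exact this
  have h2 : LinearIndependent F (fun i : ι => (Polynomial.X ^ (e i : ℕ) : Polynomial F)) :=
    h1.comp (fun i => (e i : ℕ)) (fun i j hij => e.injective (Fin.ext hij))
  let f : Polynomial F →ₗ[F] FractionRing (Polynomial F) :=
    (Algebra.linearMap (Polynomial F) (FractionRing (Polynomial F))).restrictScalars F
  have hf : LinearMap.ker f = ⊥ := by
    rw [LinearMap.ker_eq_bot]
    exact IsFractionRing.injective (Polynomial F) (FractionRing (Polynomial F))
  exact ⟨_, h2.map' f hf⟩

/-- The sum over a class equals the sum of the truncated function. -/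
theorem sum_class {M N C : Type*} [AddCommMonoid M] [Fintype N] [DecidableEq C] (cl : N → C)
    (c : C) (f : N → M) :
    ∑ s : {s // cl s = c}, f s = ∑ s, if cl s = c then f s else 0 := by
  rw [← Finset.sum_filter]
  exact (Finset.sum_subtype _ (by simp) f).symm

theorem codes_aux {F K : Type*} [Field F] [Field K] [Infinite K] [Algebra F K]
    {N ι Z : Type} [Fintype N] [Fintype ι] [Fintype Z]
    (θ : ι → K) (hθ : LinearIndependent F θ)
    (lam : N → F) (hlam : ∀ s, lam s ≠ 0) (x : N → ι → F) (hx : ∀ s, x s ≠ 0) (z : N → Z → F)
    (hspan : LinearIndependent F (fun e s => x s e))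
    (hO : ∀ e j i, ∑ s, lam s * x s e * x s j * z s i = 0) :
    ∃ (C : Type) (_ : Fintype C) (_ : DecidableEq C) (cl : N → C), Function.Surjective cl ∧
      (∀ c e j i, ∑ s : {s // cl s = c}, lam s * x s e * x s j * z s i = 0) ∧
      (2 * Fintype.card ι +
          ∑ c, finrank F (Submodule.span F (Set.range (fun s : {s // cl s = c} => z s)))
        ≤ Fintype.card N + Fintype.card C) ∧
      (∀ c, finrank F (Submodule.span F (Set.range (fun s : {s // cl s = c} => z s))) + 1
        ≤ Fintype.card {s // cl s = c}) := by
  classical
  let α := algebraMap F K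
  have hαinj : Function.Injective α := (algebraMap F K).injective
  have hθ' : ∀ g : ι → F, ∑ e, θ e * α (g e) = 0 → ∀ e, g e = 0 := by
    intro g hg
    rw [Fintype.linearIndependent_iff] at hθ
    apply hθ g
    rw [← hg]
    apply Finset.sum_congr rfl
    intro e _
    rw [Algebra.smul_def, mul_comm]
  let ψ : N → K := fun s => ∑ e, θ e * α (x s e)
  have hψ : ∀ s, ψ s ≠ 0 := by
    intro s h
    exact hx s (funext (hθ' _ h))
  let X : Submodule K (N → K) := Submodule.span K (Set.range (fun e s => α (x s e)))
  have hXdim : finrank K X = Fintype.card ι :=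
    finrank_span_eq_card (linearIndependent_ext (K := K) _ hspan)
  have hψX : ψ ∈ X := by
    have : ψ = ∑ e, θ e • (fun s => α (x s e)) := by
      ext s
      simp [ψ, Finset.sum_apply]
    rw [this]
    exact Submodule.sum_mem _ (fun e _ => Submodule.smul_mem _ _ (Submodule.subset_span ⟨e, rfl⟩))
  let m : (N → K) →ₗ[K] (N → K) := LinearMap.mulRight K (ψ⁻¹ : N → K)
  have hm : ∀ y, m y = y * ψ⁻¹ := fun y => rfl
  have hminj : Function.Injective m := by
    rw [injective_iff_map_eq_zero]
    intro y hy
    ext s
    have := congrFun hy s
    simp only [hm, Pi.mul_apply, Pi.zero_apply, mul_eq_zero, Pi.inv_apply] at this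
    exact this.resolve_right (inv_ne_zero (hψ s))
  let A : Submodule K (N → K) := X.map m
  have hA1 : (1 : N → K) ∈ A := by
    refine ⟨ψ, hψX, ?_⟩
    rw [hm]
    ext s
    simp only [Pi.mul_apply, Pi.inv_apply, Pi.one_apply]
    exact mul_inv_cancel₀ (hψ s)
  have hAdim : finrank K A = Fintype.card ι := by
    rw [← hXdim]
    exact (Submodule.equivMapOfInjective m hminj X).finrank_eq.symm
  obtain ⟨C, i1, i2, cl, W, hcl, hXW, hWA, hst, hdim⟩ :=
    kneser_lite _ A X rfl hA1 ⟨ψ, hψX, hψ⟩
  -- the orthogonality relation for all of `A * X`
  have hXX : ∀ i, ∀ y ∈ X, ∀ y' ∈ X, ∑ s, α (lam s) * y s * y' s * α (z s i) = 0 := by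
    intro i
    let β : (N → K) →ₗ[K] (N → K) →ₗ[K] K := LinearMap.mk₂ K
      (fun y y' => ∑ s, α (lam s) * y s * y' s * α (z s i))
      (by
        intro u v w
        rw [← Finset.sum_add_distrib]
        exact Finset.sum_congr rfl fun s _ => by simp only [Pi.add_apply]; ring)
      (by
        intro t u w
        rw [smul_eq_mul, Finset.mul_sum]
        exact Finset.sum_congr rfl fun s _ => by
          simp only [Pi.smul_apply, smul_eq_mul]; ring)
      (by
        intro u v w
        rw [← Finset.sum_add_distrib]
        exact Finset.sum_congr rfl fun s _ => by simp only [Pi.add_apply]; ring)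
      (by
        intro t u w
        rw [smul_eq_mul, Finset.mul_sum]
        exact Finset.sum_congr rfl fun s _ => by
          simp only [Pi.smul_apply, smul_eq_mul]; ring)
    have h1 : ∀ e, X ≤ LinearMap.ker (β (fun s => α (x s e))) := by
      intro e
      rw [Submodule.span_le]
      rintro _ ⟨j, rfl⟩
      change ∑ s, α (lam s) * α (x s e) * α (x s j) * α (z s i) = 0
      have := congrArg α (hO e j i)
      rw [map_zero, map_sum] at this
      rw [← this]
      exact Finset.sum_congr rfl fun s _ => by simp only [map_mul]
    intro y hy y' hy'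
    have h2 : X ≤ LinearMap.ker (β.flip y') := by
      rw [Submodule.span_le]
      rintro _ ⟨e, rfl⟩
      exact h1 e hy'
    exact h2 hy
  have hΛ : ∀ i, ∀ w ∈ W, ∑ s, α (lam s) * ψ s * w s * α (z s i) = 0 := by
    intro i w hw
    let Λ : (N → K) →ₗ[K] K :=
      { toFun := fun w => ∑ s, α (lam s) * ψ s * w s * α (z s i)
        map_add' := by
          intro u v
          rw [← Finset.sum_add_distrib]
          exact Finset.sum_congr rfl fun s _ => by simp only [Pi.add_apply]; ring
        map_smul' := by
          intro t u
          simp only [smul_eq_mul, RingHom.id_apply]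
          rw [Finset.mul_sum]
          exact Finset.sum_congr rfl fun s _ => by
            simp only [Pi.smul_apply, smul_eq_mul]; ring }
    have hle : A * X ≤ LinearMap.ker Λ := by
      rw [Submodule.mul_le]
      rintro _ ⟨y, hy, rfl⟩ y' hy'
      rw [LinearMap.mem_ker]
      have := hXX i y hy y' hy'
      rw [← this]
      change ∑ s, α (lam s) * ψ s * ((m y) * y') s * α (z s i) = _
      apply Finset.sum_congr rfl
      intro s _
      rw [hm]
      simp only [Pi.mul_apply, Pi.inv_apply]
      have h3 : ψ s * (ψ s)⁻¹ = 1 := mul_inv_cancel₀ (hψ s)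
      linear_combination (α (lam s) * y s * y' s * α (z s i)) * h3
    have := hle (hWA hw)
    exact this
  -- restriction to a class
  have hclass : ∀ c i, ∀ w ∈ W,
      ∑ s : {s // cl s = c}, α (lam s) * ψ s * w s * α (z s i) = 0 := by
    intro c i w hw
    have := hΛ i _ (hst c w hw)
    rw [← this, sum_class cl c (fun s => α (lam s) * ψ s * w s * α (z s i))]
    apply Finset.sum_congr rfl
    intro s _
    by_cases h : cl s = c <;> simp [h]
  refine ⟨C, i1, i2, cl, hcl, ?_, ?_, ?_⟩
  · -- P1
    intro c e j i
    have h1 := hclass c i _ (hXW (Submodule.subset_span ⟨j, rfl⟩))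
    have h2 : ∑ e, θ e * α (∑ s : {s // cl s = c}, lam s * x s e * x s j * z s i) = 0 := by
      rw [← h1]
      simp only [map_sum, map_mul, ψ, Finset.mul_sum, Finset.sum_mul]
      rw [Finset.sum_comm]
      apply Finset.sum_congr rfl
      intro s _
      apply Finset.sum_congr rfl
      intro e _
      ring
    exact hθ' _ h2 e
  · -- P2
    let M : (c : C) → (({s // cl s = c} → K) →ₗ[K] (Z → K)) := fun c =>
      Fintype.linearCombination K (fun s : {s // cl s = c} => fun i => α (lam s) * ψ s * α (z s i))
    have hM : ∀ c u i, M c u i = ∑ s : {s // cl s = c}, u s * (α (lam s) * ψ s * α (z s i)) := by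
      intro c u i
      simp [M, Fintype.linearCombination_apply, Finset.sum_apply]
    have hrank : ∀ c, finrank F (Submodule.span F (Set.range (fun s : {s // cl s = c} => z s)))
        ≤ finrank K (LinearMap.range (M c)) := by
      intro c
      refine (finrank_span_ext_le (K := K) (fun s : {s // cl s = c} => z s)).trans ?_
      apply Submodule.finrank_mono
      rw [Submodule.span_le]
      rintro _ ⟨s, rfl⟩
      refine ⟨Pi.single s ((α (lam s) * ψ s)⁻¹), ?_⟩
      have hne : α (lam s) * ψ s ≠ 0 :=
        mul_ne_zero ((map_ne_zero_iff α hαinj).2 (hlam s)) (hψ s)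
      ext i
      rw [hM, Finset.sum_eq_single s]
      · rw [Pi.single_eq_same, ← mul_assoc, inv_mul_cancel₀ hne, one_mul]
      · intro t _ hts
        rw [Pi.single_eq_of_ne hts, zero_mul]
      · intro h
        exact absurd (Finset.mem_univ _) h
    let G : W →ₗ[K] ((c : C) → LinearMap.ker (M c)) := LinearMap.pi (fun c =>
      LinearMap.codRestrict (LinearMap.ker (M c))
        ((LinearMap.funLeft K K (fun s : {s // cl s = c} => (s : N))).comp W.subtype)
        (by
          intro w
          rw [LinearMap.mem_ker]
          ext i
          rw [hM]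
          have := hclass c i w.1 w.2
          rw [Pi.zero_apply, ← this]
          apply Finset.sum_congr rfl
          intro s _
          change w.1 s * _ = _
          ring))
    have hG : Function.Injective G := by
      rw [injective_iff_map_eq_zero]
      intro w hw
      ext s
      have h1 := congrFun hw (cl s)
      have h2 := congrArg Subtype.val h1
      exact congrFun h2 ⟨s, rfl⟩
    have hd := LinearMap.finrank_le_finrank_of_injective hG
    rw [Module.finrank_pi_fintype] at hd
    have hker : ∀ c, finrank K (LinearMap.ker (M c)) +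
        finrank F (Submodule.span F (Set.range (fun s : {s // cl s = c} => z s))) ≤
        Fintype.card {s // cl s = c} := by
      intro c
      have h1 := LinearMap.finrank_range_add_finrank_ker (M c)
      rw [finrank_fintype_fun_eq_card] at h1
      have h2 := hrank c
      omega
    have hsum := Finset.sum_le_sum (fun c (_ : c ∈ Finset.univ) => hker c)
    rw [Finset.sum_add_distrib] at hsum
    have hcard : ∑ c, Fintype.card {s // cl s = c} = Fintype.card N := by
      rw [← Fintype.card_sigma]
      exact Fintype.card_congr (Equiv.sigmaFiberEquiv cl)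
    omega
  · -- P3
    intro c
    obtain ⟨s₀, hs₀⟩ := hcl c
    by_contra hcon
    push Not at hcon
    have hcon' : Fintype.card {s // cl s = c} ≤
      finrank F (Submodule.span F (Set.range (fun s : {s // cl s = c} => z s))) := by omega
    have hli := linearIndependent_iff_card_le_finrank_span.2 hcon'
    have hliK := linearIndependent_ext (K := K) _ hli
    rw [Fintype.linearIndependent_iff] at hliK
    have h1 : ∑ s : {s // cl s = c}, (α (lam s) * ψ s * ψ s) • (fun i => α (z s i)) = 0 := by
      ext i
      rw [Finset.sum_apply]
      have := hclass c i ψ (hXW hψX)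
      rw [Pi.zero_apply, ← this]
      rfl
    have h2 := hliK _ h1 ⟨s₀, hs₀⟩
    have hne : α (lam s₀) * ψ s₀ * ψ s₀ ≠ 0 :=
      mul_ne_zero (mul_ne_zero ((map_ne_zero_iff α hαinj).2 (hlam s₀)) (hψ s₀)) (hψ s₀)
    exact hne h2

theorem codes {F : Type*} [Field F] {N ι Z : Type} [Fintype N] [Fintype ι] [Fintype Z]
    (lam : N → F) (hlam : ∀ s, lam s ≠ 0) (x : N → ι → F) (hx : ∀ s, x s ≠ 0) (z : N → Z → F)
    (hspan : LinearIndependent F (fun e s => x s e))
    (hO : ∀ e j i, ∑ s, lam s * x s e * x s j * z s i = 0) :
    ∃ (C : Type) (_ : Fintype C) (_ : DecidableEq C) (cl : N → C), Function.Surjective cl ∧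
      (∀ c e j i, ∑ s : {s // cl s = c}, lam s * x s e * x s j * z s i = 0) ∧
      (2 * Fintype.card ι +
          ∑ c, finrank F (Submodule.span F (Set.range (fun s : {s // cl s = c} => z s)))
        ≤ Fintype.card N + Fintype.card C) ∧
      (∀ c, finrank F (Submodule.span F (Set.range (fun s : {s // cl s = c} => z s))) + 1
        ≤ Fintype.card {s // cl s = c}) := by
  obtain ⟨θ, hθ⟩ := exists_generic F ι
  have : Infinite (FractionRing (Polynomial F)) := by
    have : Function.Injective (algebraMap (Polynomial F) (FractionRing (Polynomial F))) :=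
      IsFractionRing.injective _ _
    exact Infinite.of_injective _ this
  exact codes_aux θ hθ lam hlam x hx z hspan hO

end Pool.Agent.Lib.MP_351138_al
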