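import Mathlib
import Pool.Agent.Lib.MP_351138_al.Codes
import Pool.Agent.Lib.MP_351138_al.ClassLemma

namespace Pool.Agent.Lib.MP_351138_al

open Module TensorProduct

/-- The trilinear forms on which the gadget terms are invisible. -/
structure IsP {F : Type*} [Field F] {I ι : Type} (nd : ι → I → F)
    (φ : (I → F) →ₗ[F] (I → F) →ₗ[F] (I → F) →ₗ[F] F) : Prop where
  polar_eq_zero : ∀ e u, polar φ u (nd e) (nd e) = 0
  cube_eq_zero : ∀ z : I → F,
    z ⊗ₜ[F] z ∈ Submodule.span F (Set.range (fun e => nd e ⊗ₜ[F] nd e)) → φ z z z = 0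

theorem IsP.lift_eq_zero {F : Type*} [Field F] {I ι : Type} {nd : ι → I → F}
    {φ : (I → F) →ₗ[F] (I → F) →ₗ[F] (I → F) →ₗ[F] F} (h : IsP nd φ) (u : I → F)
    {q : (I → F) ⊗[F] (I → F)}
    (hq : q ∈ Submodule.span F (Set.range (fun e => nd e ⊗ₜ[F] nd e))) :
    TensorProduct.lift (polar φ u) q = 0 := by
  have : Submodule.span F (Set.range (fun e => nd e ⊗ₜ[F] nd e)) ≤
      LinearMap.ker (TensorProduct.lift (polar φ u)) := by
    rw [Submodule.span_le]
    rintro _ ⟨e, rfl⟩
    exact h.polar_eq_zero e u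
  exact this hq

theorem finrank_finset_sup_le {F V C : Type*} [Field F] [AddCommGroup V] [Module F V]
    [FiniteDimensional F V] (s : Finset C) (R : C → Submodule F V) :
    finrank F (s.sup R : Submodule F V) ≤ ∑ c ∈ s, finrank F (R c) := by
  classical
  induction s using Finset.induction_on with
  | empty => simp
  | insert c s hc ih =>
    rw [Finset.sup_insert, Finset.sum_insert hc]
    have := Submodule.finrank_add_le_finrank_add_finrank (R c) (s.sup R)
    omega

theorem structure_thm
    {F : Type*} [Field F] {I ι S : Type} [Fintype I] [Fintype ι] [Fintype S] [DecidableEq I]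
    (lam : S → F) (w : S → I → F) (x : S → ι → F) (nd : ι → I → F)
    (hli : LinearIndependent F (fun e => nd e ⊗ₜ[F] nd e))
    (E1 : ∀ e j, ∑ s, (lam s * x s e * x s j) • x s = 0)
    (E2 : ∀ e j, ∑ s, (lam s * x s e * x s j) • w s = 0)
    (E3 : ∀ e, ∑ s, (lam s * x s e) • (w s ⊗ₜ[F] w s) = nd e ⊗ₜ[F] nd e)
    (hcard : Fintype.card S ≤ 3 * Fintype.card ι + 1) :
    (∃ (a : F) (v : I → F), ∀ φ, IsP nd φ →
      ∑ s, lam s * φ (w s) (w s) (w s) = a * φ v v v) ∨
    (∃ (c : Type) (_ : Fintype c) (la mu : c → F) (y : c → I → F) (U : Submodule F (I → F)),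
      finrank F U = 2 ∧ (∀ s, y s ∈ U) ∧
      (∀ φ, IsP nd φ →
        ∑ s, lam s * φ (w s) (w s) (w s) = ∑ s, la s * φ (y s) (y s) (y s)) ∧
      ∑ s, mu s • (y s ⊗ₜ[F] y s) ∈ Submodule.span F (Set.range (fun e => nd e ⊗ₜ[F] nd e)) ∧
      ∑ s, mu s • (y s ⊗ₜ[F] y s) ≠ 0) := by
  classical
  set Q : Submodule F ((I → F) ⊗[F] (I → F)) :=
    Submodule.span F (Set.range (fun e => nd e ⊗ₜ[F] nd e)) with hQdef
  have hQdim : finrank F Q = Fintype.card ι := finrank_span_eq_card hli
  -- splitting of the index set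
  have hsplit : ∀ {G : Type _} [AddCommMonoid G] (g : S → G),
      ∑ s, g s = ∑ s : {s // lam s ≠ 0 ∧ x s ≠ 0}, g s +
        ∑ s : {s // ¬ (lam s ≠ 0 ∧ x s ≠ 0)}, g s := by
    intro G _ g
    exact (Fintype.sum_subtype_add_sum_subtype (fun s => lam s ≠ 0 ∧ x s ≠ 0) g).symm
  have hzero : ∀ s : {s // ¬ (lam s ≠ 0 ∧ x s ≠ 0)}, ∀ e, lam s * x s e = 0 := by
    rintro ⟨s, hs⟩ e
    by_cases h : lam s = 0
    · simp [h]
    · have : x s = 0 := by
        by_contra h2
        exact hs ⟨h, h2⟩
      simp [this]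
  have E3' : ∀ e, ∑ s : {s // lam s ≠ 0 ∧ x s ≠ 0}, (lam s * x s e) • (w s ⊗ₜ[F] w s)
      = nd e ⊗ₜ[F] nd e := by
    intro e
    rw [← E3 e, hsplit]
    have : ∑ s : {s // ¬ (lam s ≠ 0 ∧ x s ≠ 0)}, (lam s * x s e) • (w s ⊗ₜ[F] w s) = 0 :=
      Finset.sum_eq_zero fun s _ => by rw [hzero s e, zero_smul]
    rw [this, add_zero]
  have E2' : ∀ e j, ∑ s : {s // lam s ≠ 0 ∧ x s ≠ 0}, (lam s * x s e * x s j) • w s = 0 := by
    intro e j
    have h := E2 e j
    rw [hsplit] at h
    have : ∑ s : {s // ¬ (lam s ≠ 0 ∧ x s ≠ 0)}, (lam s * x s e * x s j) • w s = 0 :=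
      Finset.sum_eq_zero fun s _ => by rw [hzero s e, zero_mul, zero_smul]
    rwa [this, add_zero] at h
  have E1' : ∀ e j, ∑ s : {s // lam s ≠ 0 ∧ x s ≠ 0}, (lam s * x s e * x s j) • x s = 0 := by
    intro e j
    have h := E1 e j
    rw [hsplit] at h
    have : ∑ s : {s // ¬ (lam s ≠ 0 ∧ x s ≠ 0)}, (lam s * x s e * x s j) • x s = 0 :=
      Finset.sum_eq_zero fun s _ => by rw [hzero s e, zero_mul, zero_smul]
    rwa [this, add_zero] at h
  -- the codes lemma
  have hspan : LinearIndependent F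
      (fun e (s : {s // lam s ≠ 0 ∧ x s ≠ 0}) => x s e) := by
    rw [Fintype.linearIndependent_iff] at hli ⊢
    intro g hg
    apply hli g
    have h1 : ∀ s : {s // lam s ≠ 0 ∧ x s ≠ 0}, ∑ e, g e * x s e = 0 := by
      intro s
      have := congrFun hg s
      simpa [Finset.sum_apply] using this
    calc ∑ e, g e • (nd e ⊗ₜ[F] nd e)
        = ∑ e, g e • ∑ s : {s // lam s ≠ 0 ∧ x s ≠ 0}, (lam s * x s e) • (w s ⊗ₜ[F] w s) := by
          simp only [E3']
      _ = ∑ s : {s // lam s ≠ 0 ∧ x s ≠ 0}, (lam s * ∑ e, g e * x s e) • (w s ⊗ₜ[F] w s) := by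
          simp only [Finset.smul_sum, Finset.mul_sum, Finset.sum_smul, smul_smul]
          rw [Finset.sum_comm]
          refine Finset.sum_congr rfl fun s _ => Finset.sum_congr rfl fun e _ => ?_
          congr 1
          ring
      _ = 0 := by simp [h1]
  obtain ⟨C, i1, i2, cl, hcl, P1, P2, P3⟩ := codes
    (fun s : {s // lam s ≠ 0 ∧ x s ≠ 0} => lam s) (fun s => s.2.1)
    (fun s : {s // lam s ≠ 0 ∧ x s ≠ 0} => x s) (fun s => s.2.2)
    (fun s : {s // lam s ≠ 0 ∧ x s ≠ 0} => (Sum.elim (w s) (x s) : I ⊕ ι → F)) hspan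
    (by
      intro e j i
      cases i with
      | inl i =>
        have := congrFun (E2' e j) i
        simpa [Finset.sum_apply] using this
      | inr i =>
        have := congrFun (E1' e j) i
        simpa [Finset.sum_apply] using this)
  have hne : ∀ c, Nonempty {s // cl s = c} := fun c => by
    obtain ⟨s, hs⟩ := hcl c
    exact ⟨⟨s, hs⟩⟩
  have hcls := fun c => class_lemma (c := {s // cl s = c})
    (fun s => lam s) (fun s => w s) (fun s => x s) (fun s => s.1.2.2)
    (by
      intro e j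
      ext i
      have := P1 c e j (Sum.inl i)
      simpa [Finset.sum_apply] using this)
    (by
      intro e j
      ext i
      have := P1 c e j (Sum.inr i)
      simpa [Finset.sum_apply] using this)
  choose k n Vc y hkn hk hrk hVn hyV hQy hcub using hcls
  -- abbreviations
  let Qc : C → ι → ((I → F) ⊗[F] (I → F)) := fun c e =>
    ∑ s : {s // cl s = c}, (lam s * x s e) • (w s ⊗ₜ[F] w s)
  let R : C → Submodule F ((I → F) ⊗[F] (I → F)) := fun c =>
    Submodule.span F (Set.range (Qc c))
  let r : C → ℕ := fun c => finrank F (R c)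
  have hrk' : ∀ c, r c ≤ k c := hrk
  have hQc : ∀ c e, Qc c e = ∑ s : {s // cl s = c}, (lam s * x s e) • (y c s ⊗ₜ[F] y c s) := hQy
  have hn0 : ∀ c, n c = 0 → ∀ s, y c s = 0 := by
    intro c hc s
    have h1 : finrank F (Vc c) = 0 := by rw [hVn, hc]
    rw [Submodule.finrank_eq_zero] at h1
    have := hyV c s
    rw [h1] at this
    exact (Submodule.mem_bot F).1 this
  have hn1 : ∀ c, n c = 1 → ∃ z : I → F, ∃ al : {s // cl s = c} → F, ∀ s, y c s = al s • z := by
    intro c hc
    have h1 : finrank F (Vc c) = 1 := by rw [hVn, hc]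
    rw [finrank_eq_one_iff'] at h1
    obtain ⟨z, _, hz⟩ := h1
    choose al hal using fun s => hz ⟨y c s, hyV c s⟩
    exact ⟨z.1, al, fun s => (congrArg Subtype.val (hal s)).symm⟩
  have hr0 : ∀ c, n c = 0 → r c = 0 := by
    intro c hc
    have : R c = ⊥ := by
      rw [eq_bot_iff, Submodule.span_le]
      rintro _ ⟨e, rfl⟩
      rw [SetLike.mem_coe, Submodule.mem_bot, hQc]
      exact Finset.sum_eq_zero fun s _ => by rw [hn0 c hc s]; simp
    change finrank F (R c) = 0
    rw [this, finrank_bot]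
  have hr1 : ∀ c, n c = 1 → r c ≤ 1 := by
    intro c hc
    obtain ⟨z, al, hal⟩ := hn1 c hc
    have : R c ≤ Submodule.span F {z ⊗ₜ[F] z} := by
      rw [Submodule.span_le]
      rintro _ ⟨e, rfl⟩
      rw [SetLike.mem_coe, hQc]
      refine Submodule.sum_mem _ fun s _ => Submodule.smul_mem _ _ ?_
      rw [hal s, TensorProduct.smul_tmul_smul]
      exact Submodule.smul_mem _ _ (Submodule.mem_span_singleton_self _)
    refine (Submodule.finrank_mono this).trans ?_
    exact (finrank_span_le_card ({z ⊗ₜ[F] z} : Set ((I → F) ⊗[F] (I → F)))).trans (by simp)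
  -- the total of the `r c`
  have hsumQ : ∀ e, ∑ c, Qc c e = nd e ⊗ₜ[F] nd e := by
    intro e
    rw [← E3' e]
    exact Fintype.sum_fiberwise cl
      (fun s : {s // lam s ≠ 0 ∧ x s ≠ 0} => (lam s * x s e) • (w s ⊗ₜ[F] w s))
  have hQle : Q ≤ Finset.univ.sup R := by
    rw [hQdef, Submodule.span_le]
    rintro _ ⟨e, rfl⟩
    rw [SetLike.mem_coe]
    dsimp only
    rw [← hsumQ e]
    refine Submodule.sum_mem _ fun c _ => ?_
    have h1 : R c ≤ Finset.univ.sup R := Finset.le_sup (Finset.mem_univ c)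
    exact h1 (Submodule.subset_span ⟨e, rfl⟩)
  have hsup := finrank_finset_sup_le Finset.univ R
  have hmr : Fintype.card ι ≤ ∑ c, r c := by
    rw [← hQdim]
    exact (Submodule.finrank_mono hQle).trans hsup
  -- the slack of a class
  let t : C → ℕ := fun c => k c + n c - (r c + 1)
  have ht : ∀ c, k c + n c = r c + 1 + t c := by
    intro c
    have h1 := hk c
    have h2 := hrk' c
    have h3 := hr0 c
    change k c + n c = r c + 1 + (k c + n c - (r c + 1))
    rcases Nat.eq_zero_or_pos (n c) with h | h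
    · have := h3 h
      omega
    · omega
  have hN : Fintype.card {s // lam s ≠ 0 ∧ x s ≠ 0} +
      Fintype.card {s // ¬ (lam s ≠ 0 ∧ x s ≠ 0)} = Fintype.card S := by
    have := Fintype.card_subtype_compl (fun s => lam s ≠ 0 ∧ x s ≠ 0)
    have h2 := Fintype.card_subtype_le (fun s => lam s ≠ 0 ∧ x s ≠ 0)
    omega
  have hsum1 : ∑ c, finrank F (Submodule.span F (Set.range (fun s : {s // cl s = c} =>
      (Sum.elim (w s) (x s) : I ⊕ ι → F)))) = ∑ c, r c + Fintype.card C + ∑ c, t c := by
    have : ∀ c, finrank F (Submodule.span F (Set.range (fun s : {s // cl s = c} =>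
      (Sum.elim (w s) (x s) : I ⊕ ι → F)))) = r c + 1 + t c := fun c => (hkn c).trans (ht c)
    simp only [this, Finset.sum_add_distrib]
    simp
  rw [hsum1] at P2
  have hcN : ∑ c, Fintype.card {s // cl s = c} =
      Fintype.card {s // lam s ≠ 0 ∧ x s ≠ 0} := by
    rw [← Fintype.card_sigma]
    exact Fintype.card_congr (Equiv.sigmaFiberEquiv cl)
  -- the sum of the `r c` is exactly `m`
  have hmr' : ∑ c, r c ≤ Fintype.card ι := by
    by_contra hcon
    push Not at hcon
    have ht0 : ∑ c, t c = 0 := by omega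
    have ht0' : ∀ c, t c = 0 := by
      intro c
      exact (Finset.sum_eq_zero_iff.1 ht0) c (Finset.mem_univ c)
    have h3 : ∀ c, 3 * r c ≤ Fintype.card {s // cl s = c} := by
      intro c
      have h4 := P3 c
      rw [hkn c] at h4
      have h5 := ht c
      have h6 := ht0' c
      have h7 := hr0 c
      have h8 := hr1 c
      have h9 := hrk' c
      have h10 := hk c
      rcases Nat.lt_or_ge (n c) 2 with h | h
      · interval_cases hnc : n c
        · have := h7 rfl
          omega
        · have := h8 rfl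
          omega
      · omega
    have h4 := Finset.sum_le_sum (fun c (_ : c ∈ Finset.univ) => h3 c)
    rw [hcN, ← Finset.mul_sum] at h4
    omega
  have hQeq : Q = Finset.univ.sup R := by
    apply Submodule.eq_of_le_of_finrank_le hQle
    rw [hQdim]
    exact hsup.trans hmr'
  have hQcQ : ∀ c e, Qc c e ∈ Q := by
    intro c e
    rw [hQeq]
    have h1 : R c ≤ Finset.univ.sup R := Finset.le_sup (Finset.mem_univ c)
    exact h1 (Submodule.subset_span ⟨e, rfl⟩)
  -- the values of the functionals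
  have hval : ∀ φ, IsP nd φ → ∑ s, lam s * φ (w s) (w s) (w s) =
      ∑ c, ∑ s : {s // cl s = c}, lam s * φ (y c s) (y c s) (y c s) +
      ∑ s : {s // ¬ (lam s ≠ 0 ∧ x s ≠ 0)}, lam s * φ (w s) (w s) (w s) := by
    intro φ hφ
    rw [hsplit]
    congr 1
    rw [← Fintype.sum_fiberwise cl]
    refine Finset.sum_congr rfl fun c _ => ?_
    exact hcub c φ (fun u e => hφ.lift_eq_zero u (hQcQ c e))
  -- classes without slack contribute nothing
  have hnoslack : ∀ c, t c = 0 → ∀ φ, IsP nd φ →
      ∑ s : {s // cl s = c}, lam s * φ (y c s) (y c s) (y c s) = 0 := by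
    intro c hc φ hφ
    have h1 := ht c
    have h2 := hrk' c
    have h3 := hk c
    rcases Nat.lt_or_ge (n c) 2 with h | h
    · interval_cases hnc : n c
      · exact Finset.sum_eq_zero fun s _ => by rw [hn0 c hnc s]; simp
      · obtain ⟨z, al, hal⟩ := hn1 c hnc
        have h4 : r c ≠ 0 := by omega
        have h5 : ∃ e, Qc c e ≠ 0 := by
          by_contra hcon
          push Not at hcon
          apply h4
          have : R c = ⊥ := by
            rw [eq_bot_iff, Submodule.span_le]
            rintro _ ⟨e, rfl⟩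
            rw [SetLike.mem_coe, Submodule.mem_bot, hcon]
          change finrank F (R c) = 0
          rw [this, finrank_bot]
        obtain ⟨e, he⟩ := h5
        have h6 : Qc c e = (∑ s : {s // cl s = c}, lam s * x s e * (al s * al s)) •
            (z ⊗ₜ[F] z) := by
          rw [hQc, Finset.sum_smul]
          refine Finset.sum_congr rfl fun s _ => ?_
          rw [hal s, TensorProduct.smul_tmul_smul, smul_smul]
        have h7 : (∑ s : {s // cl s = c}, lam s * x s e * (al s * al s)) ≠ 0 := by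
          intro h8
          rw [h8, zero_smul] at h6
          exact he h6
        have h8 : z ⊗ₜ[F] z ∈ Q := by
          have := hQcQ c e
          rw [h6] at this
          exact (Submodule.smul_mem_iff _ h7).1 this
        have h9 := hφ.cube_eq_zero z h8
        refine Finset.sum_eq_zero fun s _ => ?_
        rw [hal s]
        simp only [map_smul, LinearMap.smul_apply, smul_eq_mul, h9, mul_zero]
    · omega
  have hfin : ∑ c, t c + Fintype.card {s // ¬ (lam s ≠ 0 ∧ x s ≠ 0)} ≤ 1 := by omega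
  rcases Nat.eq_zero_or_pos (∑ c, t c) with hT | hT
  · -- no class has slack
    have ht0' : ∀ c, t c = 0 := by
      intro c
      exact (Finset.sum_eq_zero_iff.1 hT) c (Finset.mem_univ c)
    have hZ : Fintype.card {s // ¬ (lam s ≠ 0 ∧ x s ≠ 0)} ≤ 1 := by omega
    left
    rcases isEmpty_or_nonempty {s // ¬ (lam s ≠ 0 ∧ x s ≠ 0)} with hE | hE
    · refine ⟨0, 0, fun φ hφ => ?_⟩
      rw [hval φ hφ, Finset.sum_eq_zero (fun c _ => hnoslack c (ht0' c) φ hφ)]
      simp
    · obtain ⟨s₀⟩ := hE
      refine ⟨lam s₀, w s₀, fun φ hφ => ?_⟩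
      rw [hval φ hφ, Finset.sum_eq_zero (fun c _ => hnoslack c (ht0' c) φ hφ), zero_add]
      have : Subsingleton {s // ¬ (lam s ≠ 0 ∧ x s ≠ 0)} :=
        Fintype.card_le_one_iff_subsingleton.1 hZ
      rw [Fintype.sum_subsingleton _ s₀]
  · -- exactly one class has slack one
    have hZ : Fintype.card {s // ¬ (lam s ≠ 0 ∧ x s ≠ 0)} = 0 := by omega
    have hT1 : ∑ c, t c = 1 := by omega
    have hE : IsEmpty {s // ¬ (lam s ≠ 0 ∧ x s ≠ 0)} := Fintype.card_eq_zero_iff.1 hZ
    obtain ⟨c₀, -, hc₀⟩ := Finset.exists_ne_zero_of_sum_ne_zero (by omega : ∑ c, t c ≠ 0)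
    have hsplit2 := Finset.add_sum_erase Finset.univ t (Finset.mem_univ c₀)
    have hc1 : t c₀ = 1 := by omega
    have hoth : ∑ c ∈ Finset.univ.erase c₀, t c = 0 := by omega
    have hoth' : ∀ c, c ≠ c₀ → t c = 0 := by
      intro c hc
      exact (Finset.sum_eq_zero_iff.1 hoth) c (Finset.mem_erase.2 ⟨hc, Finset.mem_univ c⟩)
    have hval2 : ∀ φ, IsP nd φ → ∑ s, lam s * φ (w s) (w s) (w s) =
        ∑ s : {s // cl s = c₀}, lam s * φ (y c₀ s) (y c₀ s) (y c₀ s) := by
      intro φ hφ
      rw [hval φ hφ, Finset.sum_eq_single c₀ (fun c _ hc => hnoslack c (hoth' c hc) φ hφ)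
        (fun h => absurd (Finset.mem_univ _) h)]
      simp
    have h1 := ht c₀
    have h2 := hrk' c₀
    have h3 := hk c₀
    rcases Nat.lt_or_ge (n c₀) 3 with h | h
    · interval_cases hnc : n c₀
      · left
        refine ⟨0, 0, fun φ hφ => ?_⟩
        rw [hval2 φ hφ, zero_mul]
        exact Finset.sum_eq_zero fun s _ => by rw [hn0 c₀ hnc s]; simp
      · left
        obtain ⟨z, al, hal⟩ := hn1 c₀ hnc
        refine ⟨∑ s : {s // cl s = c₀}, lam s * (al s * al s * al s), z, fun φ hφ => ?_⟩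
        rw [hval2 φ hφ, Finset.sum_mul]
        refine Finset.sum_congr rfl fun s _ => ?_
        rw [hal s]
        simp only [map_smul, LinearMap.smul_apply, smul_eq_mul]
        ring
      · right
        have h4 : r c₀ ≠ 0 := by omega
        have h5 : ∃ e, Qc c₀ e ≠ 0 := by
          by_contra hcon
          push Not at hcon
          apply h4
          have : R c₀ = ⊥ := by
            rw [eq_bot_iff, Submodule.span_le]
            rintro _ ⟨e, rfl⟩
            rw [SetLike.mem_coe, Submodule.mem_bot, hcon]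
          change finrank F (R c₀) = 0
          rw [this, finrank_bot]
        obtain ⟨e, he⟩ := h5
        refine ⟨{s // cl s = c₀}, inferInstance, fun s => lam s, fun s => lam s * x s e, y c₀,
          Vc c₀, ?_, hyV c₀, hval2, ?_, ?_⟩
        · rw [hVn, hnc]
        · rw [← hQc]
          exact hQcQ c₀ e
        · rw [← hQc]
          exact he
    · omega

end Pool.Agent.Lib.MP_351138_al
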