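import Mathlib
import Pool.Agent.Lib.MP_351138_al.Structure

namespace Pool.Agent.Lib.MP_351138_al

open Module TensorProduct

/-- The 16 coordinates of `V`: one common coordinate and three blocks of five. -/
abbrev CI : Type := Option (Fin 3 × Fin 5)

/-- The 27 nodes `(l, i, k)`. -/
abbrev CN : Type := Fin 3 × Fin 3 × Fin 3

variable {F : Type*} [Field F]

/-- The node vectors. -/
def nd (F : Type*) [Field F] (e : CN) : CI → F
  | none => ![1, 0, 0] e.2.1
  | some p => if p.1 = e.1 then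
      (![![-1, 2, 1, 1, -2], ![1, 0, 0, 0, 0], ![0, 1, 0, 0, 0]] : Fin 3 → Fin 5 → F) e.2.1 p.2 +
      (![![0, 0, 1, 0, 0], ![0, 0, 0, 1, 0], ![0, 0, 0, 0, 1]] : Fin 3 → Fin 5 → F) e.2.2 p.2
    else 0

/-- The vectors `v_l`. -/
def vv (F : Type*) [Field F] (l : Fin 3) : CI → F
  | none => 1
  | some p => if p.1 = l then (![0, 0, 2, 2, -4] : Fin 5 → F) p.2 else 0

/-- The common vector `b`. -/
def bb (F : Type*) [Field F] : CI → F
  | none => 1
  | some _ => 0

/-- The weights `x_i x_k` with `x = (1, 1, -2)`. -/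
def cc (F : Type*) [Field F] (e : CN) : F :=
  (![1, 1, -2] : Fin 3 → F) e.2.1 * (![1, 1, -2] : Fin 3 → F) e.2.2

/-- `v_l v_l = b b + 2 ∑ x_i x_k n n`. -/
theorem vv_sq (l : Fin 3) (p q : CI) : vv F l p * vv F l q = bb F p * bb F q +
    2 * ∑ i : Fin 3, ∑ k : Fin 3, cc F (l, i, k) * (nd F (l, i, k) p * nd F (l, i, k) q) := by
  simp only [Fin.sum_univ_three]
  rcases p with _ | ⟨lp, tp⟩ <;> rcases q with _ | ⟨lq, tq⟩
  · simp [-mul_eq_zero, -zero_eq_mul, -mul_eq_mul_left_iff, vv, bb, cc, nd]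
    try ring1
  · by_cases h : lq = l
    · fin_cases tq <;> simp [-mul_eq_zero, -zero_eq_mul, -mul_eq_mul_left_iff, vv, bb, cc, nd, h] <;> try ring1
    · simp [-mul_eq_zero, -zero_eq_mul, -mul_eq_mul_left_iff, vv, bb, cc, nd, h]
  · by_cases h : lp = l
    · fin_cases tp <;> simp [-mul_eq_zero, -zero_eq_mul, -mul_eq_mul_left_iff, vv, bb, cc, nd, h] <;> try ring1
    · simp [-mul_eq_zero, -zero_eq_mul, -mul_eq_mul_left_iff, vv, bb, cc, nd, h]
  · by_cases h : lq = l
    · by_cases h' : lp = l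
      · fin_cases tq <;> fin_cases tp <;> simp [-mul_eq_zero, -zero_eq_mul, -mul_eq_mul_left_iff, vv, bb, cc, nd, h, h'] <;> try ring1
      · simp [-mul_eq_zero, -zero_eq_mul, -mul_eq_mul_left_iff, vv, bb, cc, nd, h, h']
    · simp [-mul_eq_zero, -zero_eq_mul, -mul_eq_mul_left_iff, vv, bb, cc, nd, h]

/-- The common coordinate. -/
def be (F : Type*) [Field F] : (CI → F) →ₗ[F] F := LinearMap.proj none

/-- Coordinate `t` of block `l`. -/
def co (F : Type*) [Field F] (l : Fin 3) (t : Fin 5) : (CI → F) →ₗ[F] F :=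
  LinearMap.proj (some (l, t))

@[simp] theorem be_apply (z : CI → F) : be F z = z none := rfl

@[simp] theorem co_apply (l : Fin 3) (t : Fin 5) (z : CI → F) : co F l t z = z (some (l, t)) := rfl

/-- The linear form `x_i` of block `l`. -/
def fX (F : Type*) [Field F] (l i : Fin 3) : (CI → F) →ₗ[F] F :=
  (![1, 1, -2] : Fin 3 → F) i • be F + (![0, 1, 0] : Fin 3 → F) i • co F l 0 +
    (![0, 0, 1] : Fin 3 → F) i • co F l 1

/-- The linear form `y_k` of block `l`. -/
def fY (F : Type*) [Field F] (l k : Fin 3) : (CI → F) →ₗ[F] F :=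
  (![-1, -1, 2] : Fin 3 → F) k • be F + co F l k.succ.succ

theorem fX_nd (l i : Fin 3) (e : CN) : fX F l i (nd F e) =
    if l = e.1 then (if i = e.2.1 then 1 else 0)
      else (![1, 1, -2] : Fin 3 → F) i * (![1, 0, 0] : Fin 3 → F) e.2.1 := by
  obtain ⟨l', i', k'⟩ := e
  by_cases h : l = l'
  · subst h
    fin_cases i <;> fin_cases i' <;> fin_cases k' <;> simp [fX, nd]
  · fin_cases i <;> fin_cases i' <;> simp [fX, nd, h]

theorem fY_nd (l k : Fin 3) (e : CN) : fY F l k (nd F e) =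
    if l = e.1 then (if k = e.2.2 then 1 else 0)
      else (![-1, -1, 2] : Fin 3 → F) k * (![1, 0, 0] : Fin 3 → F) e.2.1 := by
  obtain ⟨l', i', k'⟩ := e
  by_cases h : l = l'
  · subst h
    fin_cases k <;> fin_cases i' <;> fin_cases k' <;> simp [fY, nd]
  · fin_cases k <;> fin_cases i' <;> simp [fY, nd, h]

/-- The product of two linear forms as a bilinear form. -/
def two {V : Type*} [AddCommGroup V] [Module F V] (f g : V →ₗ[F] F) : V →ₗ[F] V →ₗ[F] F :=
  LinearMap.mk₂ F (fun x y => f x * g y)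
    (by intro a b c; simp only [map_add]; ring)
    (by intro t a b; simp only [map_smul, smul_eq_mul]; ring)
    (by intro a b c; simp only [map_add]; ring)
    (by intro t a b; simp only [map_smul, smul_eq_mul]; ring)

@[simp] theorem two_apply {V : Type*} [AddCommGroup V] [Module F V] (f g : V →ₗ[F] F) (x y : V) :
    two f g x y = f x * g y := rfl

/-- The product of a linear form and a bilinear form as a trilinear form. -/
def three {V : Type*} [AddCommGroup V] [Module F V] (f : V →ₗ[F] F) (B : V →ₗ[F] V →ₗ[F] F) :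
    V →ₗ[F] V →ₗ[F] V →ₗ[F] F :=
  LinearMap.smulRight f B

@[simp] theorem three_apply {V : Type*} [AddCommGroup V] [Module F V] (f : V →ₗ[F] F)
    (B : V →ₗ[F] V →ₗ[F] F) (x y z : V) : three f B x y z = f x * B y z := rfl

/-- The sum of the `c` coordinates of block `l`. -/
def fC (F : Type*) [Field F] (l : Fin 3) : (CI → F) →ₗ[F] F :=
  co F l 2 + co F l 3 + co F l 4

theorem fC_nd (l : Fin 3) (e : CN) : fC F l (nd F e) = if l = e.1 then 1 else 0 := by
  obtain ⟨l', i', k'⟩ := e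
  by_cases h : l = l'
  · subst h
    fin_cases i' <;> fin_cases k' <;> simp [fC, nd] <;> try ring1
  · simp [fC, nd, h]

/-- The dual functional of the node `e`. -/
def dual (F : Type*) [Field F] (e : CN) : (CI → F) →ₗ[F] (CI → F) →ₗ[F] F :=
  two (fX F e.1 e.2.1) (fY F e.1 e.2.2) +
    cc F e • two (be F) (fC F (e.1 + 1) + fC F (e.1 + 2))

theorem fin3_a : ∀ l : Fin 3, ¬ (l + 1 = l) := by decide

theorem fin3_b : ∀ l : Fin 3, ¬ (l + 2 = l) := by decide

theorem fin3_c : ∀ l l' : Fin 3, ¬ l = l' →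
    (l + 1 = l' ∧ ¬ l + 2 = l') ∨ (¬ l + 1 = l' ∧ l + 2 = l') := by decide

theorem dual_nd (e e' : CN) : dual F e (nd F e') (nd F e') = if e = e' then 1 else 0 := by
  have hbe : be F (nd F e') = (![1, 0, 0] : Fin 3 → F) e'.2.1 := rfl
  simp only [dual, LinearMap.add_apply, two_apply, LinearMap.smul_apply, fX_nd, fY_nd, fC_nd,
    smul_eq_mul, hbe]
  obtain ⟨l, i, k⟩ := e
  obtain ⟨l', i', k'⟩ := e'
  simp only [Prod.mk.injEq, cc]
  by_cases h : l = l'
  · subst h
    have h1 := fin3_a l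
    have h2 := fin3_b l
    simp only [h1, h2, if_true, if_false, true_and]
    by_cases hi : i = i' <;> by_cases hk : k = k' <;> simp [hi, hk]
  · have h1 : (if l + 1 = l' then (1 : F) else 0) + (if l + 2 = l' then (1 : F) else 0) = 1 := by
      rcases fin3_c l l' h with ⟨h1, h2⟩ | ⟨h1, h2⟩ <;> simp [h1, h2]
    rw [h1]
    simp only [h, if_false, false_and]
    fin_cases i <;> fin_cases k <;> fin_cases i' <;> simp

theorem nd_linearIndependent : LinearIndependent F (fun e : CN => nd F e ⊗ₜ[F] nd F e) := by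
  rw [Fintype.linearIndependent_iff]
  intro g hg e
  have := congrArg (TensorProduct.lift (dual F e)) hg
  rw [map_sum, map_zero] at this
  simpa [dual_nd] using this

/-- The span of the squares of the nodes. -/
abbrev QQ (F : Type*) [Field F] : Submodule F ((CI → F) ⊗[F] (CI → F)) :=
  Submodule.span F (Set.range (fun e : CN => nd F e ⊗ₜ[F] nd F e))

/-- A bilinear form vanishing on the nodes vanishes on `QQ`. -/
theorem lift_eq_zero_of_nodes (B : (CI → F) →ₗ[F] (CI → F) →ₗ[F] F)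
    (hB : ∀ e, B (nd F e) (nd F e) = 0) {q : (CI → F) ⊗[F] (CI → F)} (hq : q ∈ QQ F) :
    TensorProduct.lift B q = 0 := by
  have : QQ F ≤ LinearMap.ker (TensorProduct.lift B) := by
    rw [Submodule.span_le]
    rintro _ ⟨e, rfl⟩
    exact hB e
  exact this hq

theorem eq_zero_of_nodes (B : (CI → F) →ₗ[F] (CI → F) →ₗ[F] F)
    (hB : ∀ e, B (nd F e) (nd F e) = 0) {z : CI → F} (hz : z ⊗ₜ[F] z ∈ QQ F) : B z z = 0 :=
  lift_eq_zero_of_nodes B hB hz

theorem nd_other {l l' : Fin 3} (h : l ≠ l') (i k : Fin 3) (t : Fin 5) :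
    nd F (l', i, k) (some (l, t)) = 0 := by
  simp [nd, h]

theorem cross_nodes {l l' : Fin 3} (h : l ≠ l') (t t' : Fin 5) (e : CN) :
    two (co F l t) (co F l' t') (nd F e) (nd F e) = 0 := by
  obtain ⟨m, i, k⟩ := e
  rw [two_apply, co_apply, co_apply]
  by_cases hm : l = m
  · subst hm
    rw [nd_other (Ne.symm h), mul_zero]
  · rw [nd_other hm, zero_mul]

/-- The products of three coordinates from different blocks are invisible. -/
theorem isP_cross {l₁ l₂ l₃ : Fin 3} (h12 : l₁ ≠ l₂) (h13 : l₁ ≠ l₃) (h23 : l₂ ≠ l₃)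
    (t₁ t₂ t₃ : Fin 5) :
    IsP (nd F) (three (co F l₁ t₁) (two (co F l₂ t₂) (co F l₃ t₃))) := by
  constructor
  · rintro e u
    have h1 := cross_nodes (F := F) h12 t₁ t₂ e
    have h2 := cross_nodes (F := F) h13 t₁ t₃ e
    have h3 := cross_nodes (F := F) h23 t₂ t₃ e
    simp only [two_apply] at h1 h2 h3
    simp only [polar_apply, three_apply, two_apply]
    linear_combination (co F l₃ t₃ u) * h1 + (co F l₂ t₂ u) * h2 + (co F l₁ t₁ u) * h3
  · intro z hz
    rw [three_apply, eq_zero_of_nodes _ (cross_nodes h23 t₂ t₃) hz, mul_zero]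

/-- The linear form `λ + 2 c₁` of block `j`. -/
def fL (F : Type*) [Field F] (j : Fin 3) : (CI → F) →ₗ[F] F :=
  co F j 1 - (2 : F) • co F j 0 - (2 : F) • co F j 3 + co F j 4

/-- The bilinear form `∑_{l ≠ j} a₂ a₃`. -/
def fA (F : Type*) [Field F] (j : Fin 3) : (CI → F) →ₗ[F] (CI → F) →ₗ[F] F :=
  two (co F (j + 1) 0) (co F (j + 1) 1) + two (co F (j + 2) 0) (co F (j + 2) 1)

/-- The trilinear form polarising `2 x₁ x₂ x₃ + 2 y₁ y₂ y₃ + λ A` of block `j`. -/
def phi (F : Type*) [Field F] (j : Fin 3) : (CI → F) →ₗ[F] (CI → F) →ₗ[F] (CI → F) →ₗ[F] F :=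
  three ((2 : F) • fX F j 0) (two (fX F j 1) (fX F j 2) - fA F j) +
    three ((2 : F) • fY F j 0) (two (fY F j 1) (fY F j 2) - fA F j) +
    three (co F (j + 1) 1) (two (fL F j) (co F (j + 1) 0)) +
    three (co F (j + 2) 1) (two (fL F j) (co F (j + 2) 0))

theorem fin3_cases (j l : Fin 3) : l = j ∨ l = j + 1 ∨ l = j + 2 := by
  revert j l; decide

theorem g1_nodes (j : Fin 3) (e : CN) :
    (two (fX F j 1) (fX F j 2) - fA F j) (nd F e) (nd F e) = 0 := by
  obtain ⟨l, i, k⟩ := e
  simp only [LinearMap.sub_apply, fA, two_apply, LinearMap.add_apply]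
  rcases fin3_cases j l with rfl | rfl | rfl
  · fin_cases i <;> fin_cases k <;> simp [fX, nd]
  · fin_cases i <;> fin_cases k <;> simp [fX, nd]
  · fin_cases i <;> fin_cases k <;> simp [fX, nd]

theorem g2_nodes (j : Fin 3) (e : CN) :
    (two (fY F j 1) (fY F j 2) - fA F j) (nd F e) (nd F e) = 0 := by
  obtain ⟨l, i, k⟩ := e
  simp only [LinearMap.sub_apply, fA, two_apply, LinearMap.add_apply]
  rcases fin3_cases j l with rfl | rfl | rfl
  · fin_cases i <;> fin_cases k <;> simp [fY, nd]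
  · fin_cases i <;> fin_cases k <;> simp [fY, nd]
  · fin_cases i <;> fin_cases k <;> simp [fY, nd]

theorem g3_nodes {j l' : Fin 3} (h : j ≠ l') (e : CN) :
    two (fL F j) (co F l' 0) (nd F e) (nd F e) = 0 := by
  obtain ⟨l, i, k⟩ := e
  rw [two_apply]
  by_cases hl : j = l
  · subst hl
    rw [co_apply, nd_other (Ne.symm h), mul_zero]
  · have : fL F j (nd F (l, i, k)) = 0 := by
      simp [fL, nd_other hl]
    rw [this, zero_mul]

theorem isP_phi (j : Fin 3) : IsP (nd F) (phi F j) := by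
  constructor
  · rintro ⟨l, i, k⟩ u
    simp only [polar_apply, phi, LinearMap.add_apply, three_apply, two_apply,
      LinearMap.sub_apply, fA, LinearMap.smul_apply]
    rcases fin3_cases j l with rfl | rfl | rfl
    · fin_cases i <;> fin_cases k <;> simp [fX, fY, fL, nd]
    · fin_cases i <;> fin_cases k <;> simp [fX, fY, fL, nd] <;> ring
    · fin_cases i <;> fin_cases k <;> simp [fX, fY, fL, nd] <;> ring
  · intro z hz
    simp only [phi, LinearMap.add_apply, three_apply]
    rw [eq_zero_of_nodes _ (g1_nodes j) hz, eq_zero_of_nodes _ (g2_nodes j) hz,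
      eq_zero_of_nodes _ (g3_nodes (l' := j + 1) (by revert j; decide)) hz,
      eq_zero_of_nodes _ (g3_nodes (l' := j + 2) (by revert j; decide)) hz]
    ring

/-- The form `2 g₀`. -/
def g0 (F : Type*) [Field F] : (CI → F) →ₗ[F] (CI → F) →ₗ[F] F :=
  two ((2 : F) • be F) (be F) + (two (co F 0 0) (co F 0 1) + two (co F 1 0) (co F 1 1) +
    two (co F 2 0) (co F 2 1))

theorem g0_nodes (e : CN) : g0 F (nd F e) (nd F e) = 0 := by
  obtain ⟨l, i, k⟩ := e
  simp only [g0, two_apply, LinearMap.add_apply]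
  fin_cases l <;> fin_cases i <;> fin_cases k <;> simp [nd]

/-- `phi j` vanishes on vectors without block `j` coordinates. -/
theorem phi_eq_zero (j : Fin 3) (z : CI → F) (hz : ∀ t, z (some (j, t)) = 0) :
    phi F j z z z = 0 := by
  have h0 := hz 0
  have h1 := hz 1
  have h2 := hz 2
  have h3 := hz 3
  have h4 := hz 4
  simp only [phi, LinearMap.add_apply, three_apply, two_apply, LinearMap.sub_apply, fA,
    LinearMap.smul_apply]
  simp [fX, fY, fL, h0, h1, h2, h3, h4]

theorem phi_vv_same (j : Fin 3) : phi F j (vv F j) (vv F j) (vv F j) = -8 := by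
  simp only [phi, LinearMap.add_apply, three_apply, two_apply, LinearMap.sub_apply, fA,
    LinearMap.smul_apply]
  simp [fX, fY, fL, vv]
  ring

theorem phi_vv_other {j l : Fin 3} (h : j ≠ l) : phi F j (vv F l) (vv F l) (vv F l) = 0 := by
  apply phi_eq_zero
  intro t
  simp [vv, h]

theorem sum_phi_vv (j : Fin 3) : ∑ l, phi F j (vv F l) (vv F l) (vv F l) = -8 := by
  rw [Finset.sum_eq_single j (fun l _ hl => phi_vv_other (Ne.symm hl))
    (fun h => absurd (Finset.mem_univ _) h), phi_vv_same]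

theorem sum_cross_vv {l₁ l₂ l₃ : Fin 3} (h12 : l₁ ≠ l₂) (t₁ t₂ t₃ : Fin 5) :
    ∑ l, three (co F l₁ t₁) (two (co F l₂ t₂) (co F l₃ t₃)) (vv F l) (vv F l) (vv F l) = 0 := by
  refine Finset.sum_eq_zero fun l _ => ?_
  simp only [three_apply, two_apply, co_apply]
  by_cases h : l₁ = l
  · subst h
    simp [vv, Ne.symm h12]
  · simp [vv, h]

end Pool.Agent.Lib.MP_351138_al
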