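import Mathlib
import Pool.Agent.Lib.MP_351138_al.Example

namespace Pool.Agent.Lib.MP_351138_al

open Module TensorProduct

/-- Expansion of a combination of squares in coordinates. -/
theorem sum_tmul_eq {F : Type*} [Field F] {I c : Type} [Fintype I] [DecidableEq I] [Fintype c]
    (a : c → F) (y : c → I → F) :
    ∑ s, a s • (y s ⊗ₜ[F] y s) = ∑ i, ∑ j, (∑ s, a s * (y s i * y s j)) •
      ((Pi.single i (1 : F) : I → F) ⊗ₜ[F] (Pi.single j (1 : F) : I → F)) := by
  have h1 : ∀ s, y s = ∑ i, y s i • (Pi.single i (1 : F) : I → F) := by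
    intro s
    ext i
    simp [Finset.sum_apply, Pi.single_apply]
  have h2 : ∀ s, y s ⊗ₜ[F] y s = ∑ i, ∑ j, (y s i * y s j) •
      ((Pi.single i (1 : F) : I → F) ⊗ₜ[F] (Pi.single j (1 : F) : I → F)) := by
    intro s
    conv_lhs => rw [h1 s]
    rw [TensorProduct.sum_tmul]
    refine Finset.sum_congr rfl fun i _ => ?_
    rw [TensorProduct.tmul_sum]
    refine Finset.sum_congr rfl fun j _ => ?_
    rw [TensorProduct.smul_tmul_smul]
  simp only [h2, Finset.smul_sum, Finset.sum_smul, smul_smul]
  rw [Finset.sum_comm]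
  refine Finset.sum_congr rfl fun i _ => ?_
  rw [Finset.sum_comm]

/-- A plane is spanned by two of its vectors which are separated by a linear form. -/
theorem exists_coords_of_finrank_two {F V : Type*} [Field F] [AddCommGroup V] [Module F V]
    [FiniteDimensional F V] (U : Submodule F V) (hU : finrank F U = 2) (u w : V) (hu : u ∈ U)
    (hw : w ∈ U) (hu0 : u ≠ 0) (f : V →ₗ[F] F) (hfu : f u = 0) (hfw : f w ≠ 0) :
    ∀ y ∈ U, ∃ a g : F, y = a • u + g • w := by
  have hli : LinearIndependent F ![u, w] := by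
    rw [LinearIndependent.pair_iff]
    intro s t hst
    have h1 := congrArg f hst
    rw [map_add, map_smul, map_smul, hfu, map_zero, smul_zero, zero_add, smul_eq_mul] at h1
    have ht : t = 0 := by
      rcases mul_eq_zero.1 h1 with h | h
      · exact h
      · exact absurd h hfw
    subst ht
    rw [zero_smul, add_zero] at hst
    exact ⟨(smul_eq_zero.1 hst).resolve_right hu0, rfl⟩
  have h1 : Submodule.span F (Set.range ![u, w]) ≤ U := by
    rw [Submodule.span_le]
    rintro _ ⟨i, rfl⟩
    fin_cases i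
    · exact hu
    · exact hw
  have h2 : Submodule.span F (Set.range ![u, w]) = U := by
    apply Submodule.eq_of_le_of_finrank_le h1
    rw [finrank_span_eq_card hli, hU]
    simp
  intro y hy
  rw [← h2, Matrix.range_cons, Matrix.range_cons, Matrix.range_empty, Set.union_empty,
    Set.singleton_union, Submodule.mem_span_pair] at hy
  obtain ⟨a, g, h⟩ := hy
  exact ⟨a, g, h.symm⟩

theorem fin3_h : ∀ l : Fin 3, ¬ (l + 1 = l + 2) := by decide

variable {F : Type*} [Field F]

theorem no_case_one (h2 : (2 : F) ≠ 0) (a : F) (v : CI → F)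
    (h : ∀ φ, IsP (nd F) φ → ∑ l, φ (vv F l) (vv F l) (vv F l) = a * φ v v v) : False := by
  have h8 : (-8 : F) ≠ 0 := by
    have : (-8 : F) = -(2 * 2 * 2) := by norm_num
    rw [this]
    exact neg_ne_zero.2 (mul_ne_zero (mul_ne_zero h2 h2) h2)
  have hne : ∀ j, a * phi F j v v v ≠ 0 := by
    intro j
    rw [← h _ (isP_phi j), sum_phi_vv]
    exact h8
  have ha : a ≠ 0 := left_ne_zero_of_mul (hne 0)
  have hv : ∀ j, ∃ t, v (some (j, t)) ≠ 0 := by
    intro j
    by_contra hcon
    push Not at hcon
    exact right_ne_zero_of_mul (hne j) (phi_eq_zero j v hcon)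
  obtain ⟨t₀, ht₀⟩ := hv 0
  obtain ⟨t₁, ht₁⟩ := hv 1
  obtain ⟨t₂, ht₂⟩ := hv 2
  have h1 := h _ (isP_cross (l₁ := 0) (l₂ := 1) (l₃ := 2) (by decide) (by decide) (by decide)
    t₀ t₁ t₂)
  rw [sum_cross_vv (by decide)] at h1
  have : a * (v (some (0, t₀)) * (v (some (1, t₁)) * v (some (2, t₂)))) = 0 := h1.symm
  exact (mul_ne_zero ha (mul_ne_zero ht₀ (mul_ne_zero ht₁ ht₂))) this

theorem no_case_two (h2 : (2 : F) ≠ 0) {c : Type} [Fintype c] (la mu : c → F)
    (y : c → CI → F) (U : Submodule F (CI → F)) (hU : finrank F U = 2) (hy : ∀ s, y s ∈ U)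
    (h : ∀ φ, IsP (nd F) φ → ∑ l, φ (vv F l) (vv F l) (vv F l) =
      ∑ s, la s * φ (y s) (y s) (y s))
    (hq : ∑ s, mu s • (y s ⊗ₜ[F] y s) ∈ QQ F) (hq0 : ∑ s, mu s • (y s ⊗ₜ[F] y s) ≠ 0) :
    False := by
  have h8 : (-8 : F) ≠ 0 := by
    have : (-8 : F) = -(2 * 2 * 2) := by norm_num
    rw [this]
    exact neg_ne_zero.2 (mul_ne_zero (mul_ne_zero h2 h2) h2)
  -- all block projections of `U` are nonzero
  have hproj : ∀ j, ∃ z ∈ U, ∃ t, z (some (j, t)) ≠ 0 := by
    intro j
    by_contra hcon
    push Not at hcon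
    have h1 := h _ (isP_phi j)
    rw [sum_phi_vv, Finset.sum_eq_zero] at h1
    · exact h8 h1
    · intro s _
      rw [phi_eq_zero j (y s) (hcon (y s) (hy s)), mul_zero]
  -- quadratic relations
  have hquad : ∀ B : (CI → F) →ₗ[F] (CI → F) →ₗ[F] F, (∀ e, B (nd F e) (nd F e) = 0) →
      ∑ s, mu s * B (y s) (y s) = 0 := by
    intro B hB
    have h1 := lift_eq_zero_of_nodes B hB hq
    rw [map_sum] at h1
    rw [← h1]
    refine Finset.sum_congr rfl fun s _ => ?_
    rw [map_smul, TensorProduct.lift.tmul, smul_eq_mul]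
  have hpolar : ∀ φ, IsP (nd F) φ → ∀ u, ∑ s, mu s * polar φ u (y s) (y s) = 0 := by
    intro φ hφ u
    exact hquad _ (fun e => hφ.polar_eq_zero e u)
  have hcrossQ : ∀ {l l' : Fin 3}, l ≠ l' → ∀ t t',
      ∑ s, mu s * (y s (some (l, t)) * y s (some (l', t'))) = 0 := by
    intro l l' hl t t'
    exact hquad _ (cross_nodes hl t t')
  have hcrossC : ∀ {l₁ l₂ l₃ : Fin 3}, l₁ ≠ l₂ → l₁ ≠ l₃ → l₂ ≠ l₃ → ∀ t₁ t₂ t₃,
      ∑ s, la s * (y s (some (l₁, t₁)) * (y s (some (l₂, t₂)) * y s (some (l₃, t₃)))) = 0 := by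
    intro l₁ l₂ l₃ h12 h13 h23 t₁ t₂ t₃
    have h1 := h _ (isP_cross h12 h13 h23 t₁ t₂ t₃)
    rw [sum_cross_vv h12] at h1
    exact h1.symm
  by_cases hb : bb F ∈ U
  · -- the case `b ∈ U`
    obtain ⟨w, hw, t₀, ht₀⟩ := hproj 0
    have hb0 : bb F ≠ 0 := by
      intro h0
      have := congrFun h0 none
      exact one_ne_zero this
    have hco := exists_coords_of_finrank_two U hU (bb F) w hb hw hb0 (co F 0 t₀) rfl ht₀
    choose al ga hyc using fun s => hco (y s) (hy s)
    have hwj : ∀ j, ∃ t, w (some (j, t)) ≠ 0 := by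
      intro j
      obtain ⟨z, hz, t, ht⟩ := hproj j
      obtain ⟨a, g, rfl⟩ := hco z hz
      refine ⟨t, ?_⟩
      intro hwt
      apply ht
      simp [bb, hwt]
    obtain ⟨t₁, ht₁⟩ := hwj 1
    obtain ⟨t₂, ht₂⟩ := hwj 2
    have hyp : ∀ s p, y s (some p) = ga s * w (some p) := by
      intro s p
      rw [hyc s]
      simp [bb]
    have q2 : ∑ s, mu s * (ga s * ga s) = 0 := by
      have h1 := hcrossQ (l := 0) (l' := 1) (by decide) t₀ t₁
      simp only [hyp] at h1
      have h3 : (∑ s, mu s * (ga s * ga s)) * (w (some (0, t₀)) * w (some (1, t₁))) = 0 := by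
        rw [← h1, Finset.sum_mul]
        exact Finset.sum_congr rfl fun s _ => by ring
      exact (mul_eq_zero.1 h3).resolve_right (mul_ne_zero ht₀ ht₁)
    have c3 : ∑ s, la s * (ga s * ga s * ga s) = 0 := by
      have h1 := hcrossC (l₁ := 0) (l₂ := 1) (l₃ := 2) (by decide) (by decide) (by decide)
        t₀ t₁ t₂
      simp only [hyp] at h1
      have h3 : (∑ s, la s * (ga s * ga s * ga s)) *
          (w (some (0, t₀)) * (w (some (1, t₁)) * w (some (2, t₂)))) = 0 := by
        rw [← h1, Finset.sum_mul]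
        exact Finset.sum_congr rfl fun s _ => by ring
      exact (mul_eq_zero.1 h3).resolve_right (mul_ne_zero ht₀ (mul_ne_zero ht₁ ht₂))
    -- the bilinear expansion
    have hexp : ∀ B : (CI → F) →ₗ[F] (CI → F) →ₗ[F] F, ∑ s, mu s * B (y s) (y s) =
        (∑ s, mu s * (al s * al s)) * B (bb F) (bb F) +
        (∑ s, mu s * (al s * ga s)) * (B (bb F) w + B w (bb F)) := by
      intro B
      have h1 : ∑ s, mu s * B (y s) (y s) =
        (∑ s, mu s * (al s * al s)) * B (bb F) (bb F) +
        (∑ s, mu s * (al s * ga s)) * (B (bb F) w + B w (bb F)) +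
        (∑ s, mu s * (ga s * ga s)) * B w w := by
        simp only [Finset.sum_mul, ← Finset.sum_add_distrib]
        refine Finset.sum_congr rfl fun s _ => ?_
        rw [hyc s]
        simp only [map_add, map_smul, LinearMap.add_apply, LinearMap.smul_apply, smul_eq_mul]
        ring
      rw [h1, q2]
      ring
    have q1 : ∑ s, mu s * (al s * ga s) ≠ 0 := by
      intro h0
      have h1 := hquad (g0 F) g0_nodes
      rw [hexp, h0, zero_mul, add_zero] at h1
      have hg : g0 F (bb F) (bb F) = 2 := by
        simp [g0, bb]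
      rw [hg] at h1
      have h3 := (mul_eq_zero.1 h1).resolve_right h2
      apply hq0
      have h4 : ∑ s, mu s • (y s ⊗ₜ[F] y s) =
          (∑ s, mu s * (al s * al s)) • (bb F ⊗ₜ[F] bb F) +
          (∑ s, mu s * (al s * ga s)) • (bb F ⊗ₜ[F] w + w ⊗ₜ[F] bb F) +
          (∑ s, mu s * (ga s * ga s)) • (w ⊗ₜ[F] w) := by
        simp only [Finset.sum_smul, ← Finset.sum_add_distrib]
        refine Finset.sum_congr rfl fun s _ => ?_
        rw [hyc s]
        simp only [TensorProduct.add_tmul, TensorProduct.tmul_add, TensorProduct.smul_tmul_smul,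
          smul_add, smul_smul]
        rw [mul_comm (ga s) (al s)]
        abel
      rw [h4, h3, h0, q2]
      simp
    set φ := phi F 0 with hφdef
    have hφ : IsP (nd F) φ := isP_phi 0
    have hbbb : φ (bb F) (bb F) (bb F) = 0 := phi_eq_zero 0 (bb F) (fun t => rfl)
    have hD : φ (bb F) (bb F) w + φ (bb F) w (bb F) + φ w (bb F) (bb F) = 0 := by
      have h1 := hpolar φ hφ (bb F)
      rw [hexp] at h1
      simp only [polar_apply, hbbb] at h1
      have h3 : (∑ s, mu s * (al s * ga s)) *
          (2 * (φ (bb F) (bb F) w + φ (bb F) w (bb F) + φ w (bb F) (bb F))) = 0 := by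
        rw [← h1]
        ring
      exact (mul_eq_zero.1 ((mul_eq_zero.1 h3).resolve_left q1)).resolve_left h2
    have hD' : φ w w (bb F) + φ w (bb F) w + φ (bb F) w w = 0 := by
      have h1 := hpolar φ hφ w
      rw [hexp] at h1
      simp only [polar_apply] at h1
      rw [hD] at h1
      have h3 : (∑ s, mu s * (al s * ga s)) *
          (2 * (φ w w (bb F) + φ w (bb F) w + φ (bb F) w w)) = 0 := by
        rw [← h1]
        ring
      exact (mul_eq_zero.1 ((mul_eq_zero.1 h3).resolve_left q1)).resolve_left h2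
    have hfin : ∑ s, la s * φ (y s) (y s) (y s) = 0 := by
      have h1 : ∑ s, la s * φ (y s) (y s) (y s) =
          (∑ s, la s * (al s * al s * al s)) * φ (bb F) (bb F) (bb F) +
          (∑ s, la s * (al s * al s * ga s)) *
            (φ (bb F) (bb F) w + φ (bb F) w (bb F) + φ w (bb F) (bb F)) +
          (∑ s, la s * (al s * ga s * ga s)) *
            (φ w w (bb F) + φ w (bb F) w + φ (bb F) w w) +
          (∑ s, la s * (ga s * ga s * ga s)) * φ w w w := by
        simp only [Finset.sum_mul, ← Finset.sum_add_distrib]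
        refine Finset.sum_congr rfl fun s _ => ?_
        rw [hyc s]
        simp only [map_add, map_smul, LinearMap.add_apply, LinearMap.smul_apply, smul_eq_mul]
        ring
      rw [h1, hbbb, hD, hD', c3]
      ring
    have h1 := h φ hφ
    rw [hfin, hφdef, sum_phi_vv] at h1
    exact h8 h1
  · -- the case `b ∉ U`
    -- a nonzero row of `q`
    have hrow : ∃ p : Fin 3 × Fin 5, ∃ j', ∑ s, mu s * (y s (some p) * y s j') ≠ 0 := by
      by_contra hcon
      push Not at hcon
      apply hq0
      rw [sum_tmul_eq]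
      have h00 : ∑ s, mu s * (y s none * y s none) = 0 := by
        have h1 := hquad (g0 F) g0_nodes
        have h3 : ∑ s, mu s * g0 F (y s) (y s) = 2 * (∑ s, mu s * (y s none * y s none)) +
            ((∑ s, mu s * (y s (some (0, 0)) * y s (some (0, 1)))) +
            (∑ s, mu s * (y s (some (1, 0)) * y s (some (1, 1)))) +
            (∑ s, mu s * (y s (some (2, 0)) * y s (some (2, 1))))) := by
          simp only [Finset.mul_sum, ← Finset.sum_add_distrib]
          refine Finset.sum_congr rfl fun s _ => ?_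
          simp only [g0, LinearMap.add_apply, two_apply, LinearMap.smul_apply, be_apply,
            co_apply, smul_eq_mul]
          ring
        rw [h3, hcon, hcon, hcon] at h1
        simp only [add_zero] at h1
        exact (mul_eq_zero.1 h1).resolve_left h2
      refine Finset.sum_eq_zero fun i _ => Finset.sum_eq_zero fun j _ => ?_
      have : ∑ s, mu s * (y s i * y s j) = 0 := by
        rcases i with _ | p
        · rcases j with _ | p'
          · exact h00
          · rw [← hcon p' none]
            exact Finset.sum_congr rfl fun s _ => by ring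
        · exact hcon p j
      rw [this, zero_smul]
    obtain ⟨⟨i, t⟩, j', hj'⟩ := hrow
    let u : CI → F := ∑ s, (mu s * y s (some (i, t))) • y s
    have huc : ∀ p, u p = ∑ s, mu s * (y s (some (i, t)) * y s p) := by
      intro p
      simp only [u, Finset.sum_apply, Pi.smul_apply, smul_eq_mul]
      exact Finset.sum_congr rfl fun s _ => by ring
    have huU : u ∈ U := Submodule.sum_mem _ fun s _ => Submodule.smul_mem _ _ (hy s)
    have hu0 : u ≠ 0 := by
      intro h0
      apply hj'
      rw [← huc, h0]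
      rfl
    have huo : ∀ l, l ≠ i → ∀ t', u (some (l, t')) = 0 := by
      intro l hl t'
      rw [huc]
      exact hcrossQ (Ne.symm hl) t t'
    have hui : ∃ t', u (some (i, t')) ≠ 0 := by
      by_contra hcon
      push Not at hcon
      have h1 : u = u none • bb F := by
        ext p
        rcases p with _ | ⟨l, t'⟩
        · simp [bb]
        · simp only [bb, Pi.smul_apply, smul_zero]
          by_cases hl : l = i
          · subst hl
            exact hcon t'
          · exact huo l hl t'
      have h3 : u none ≠ 0 := by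
        intro h0
        rw [h0, zero_smul] at h1
        exact hu0 h1
      apply hb
      have h4 : (u none)⁻¹ • u ∈ U := Submodule.smul_mem _ _ huU
      rw [h1, smul_smul] at h4
      have h5 : (u none • bb F) none = u none := by simp [bb]
      rw [h5, inv_mul_cancel₀ h3, one_smul] at h4
      exact h4
    obtain ⟨ti, hti⟩ := hui
    obtain ⟨w, hw, tj, htj⟩ := hproj (i + 1)
    have hne1 : i + 1 ≠ i := fin3_a i
    have hne2 : i + 2 ≠ i := fin3_b i
    have hne3 : i + 1 ≠ i + 2 := fin3_h i
    have hco := exists_coords_of_finrank_two U hU u w huU hw hu0 (co F (i + 1) tj)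
      (huo _ hne1 tj) htj
    choose al ga hyc using fun s => hco (y s) (hy s)
    obtain ⟨tk, htk⟩ : ∃ tk, w (some (i + 2, tk)) ≠ 0 := by
      obtain ⟨z, hz, tk, htk⟩ := hproj (i + 2)
      obtain ⟨a, g, rfl⟩ := hco z hz
      refine ⟨tk, ?_⟩
      intro hwt
      apply htk
      simp [hwt, huo _ hne2 tk]
    have hyi : ∀ s t', y s (some (i, t')) = al s * u (some (i, t')) + ga s * w (some (i, t')) := by
      intro s t'
      rw [hyc s]
      simp
    have hyo : ∀ s l, l ≠ i → ∀ t', y s (some (l, t')) = ga s * w (some (l, t')) := by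
      intro s l hl t'
      rw [hyc s]
      simp [huo l hl t']
    have c2 : ∑ s, mu s * (ga s * ga s) = 0 := by
      have h1 := hcrossQ hne3 tj tk
      simp only [hyo _ _ hne1, hyo _ _ hne2] at h1
      have h3 : (∑ s, mu s * (ga s * ga s)) *
          (w (some (i + 1, tj)) * w (some (i + 2, tk))) = 0 := by
        rw [← h1, Finset.sum_mul]
        exact Finset.sum_congr rfl fun s _ => by ring
      exact (mul_eq_zero.1 h3).resolve_right (mul_ne_zero htj htk)
    have c1 : ∑ s, mu s * (al s * ga s) = 0 := by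
      have h1 := hcrossQ (Ne.symm hne1) ti tj
      simp only [hyo _ _ hne1, hyi] at h1
      have h3 : (∑ s, mu s * (al s * ga s)) * (u (some (i, ti)) * w (some (i + 1, tj))) +
          (∑ s, mu s * (ga s * ga s)) * (w (some (i, ti)) * w (some (i + 1, tj))) = 0 := by
        rw [← h1, Finset.sum_mul, Finset.sum_mul, ← Finset.sum_add_distrib]
        exact Finset.sum_congr rfl fun s _ => by ring
      rw [c2, zero_mul, add_zero] at h3
      exact (mul_eq_zero.1 h3).resolve_right (mul_ne_zero hti htj)
    have h4 : ∑ s, mu s • (y s ⊗ₜ[F] y s) = (∑ s, mu s * (al s * al s)) • (u ⊗ₜ[F] u) := by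
      have h4 : ∑ s, mu s • (y s ⊗ₜ[F] y s) =
          (∑ s, mu s * (al s * al s)) • (u ⊗ₜ[F] u) +
          (∑ s, mu s * (al s * ga s)) • (u ⊗ₜ[F] w + w ⊗ₜ[F] u) +
          (∑ s, mu s * (ga s * ga s)) • (w ⊗ₜ[F] w) := by
        simp only [Finset.sum_smul, ← Finset.sum_add_distrib]
        refine Finset.sum_congr rfl fun s _ => ?_
        rw [hyc s]
        simp only [TensorProduct.add_tmul, TensorProduct.tmul_add, TensorProduct.smul_tmul_smul,
          smul_add, smul_smul]
        rw [mul_comm (ga s) (al s)]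
        abel
      rw [h4, c1, c2]
      simp
    have c0 : ∑ s, mu s * (al s * al s) ≠ 0 := by
      intro h0
      rw [h0, zero_smul] at h4
      exact hq0 h4
    have huQ : u ⊗ₜ[F] u ∈ QQ F := by
      rw [h4] at hq
      exact (Submodule.smul_mem_iff _ c0).1 hq
    set φ := phi F i with hφdef
    have hφ : IsP (nd F) φ := isP_phi i
    have huuu : φ u u u = 0 := hφ.cube_eq_zero u huQ
    have huuw : φ u u w + φ u w u + φ w u u = 0 := by
      have := hφ.lift_eq_zero w huQ
      exact this
    have hd : ∀ t', (∑ s, la s * (al s * ga s * ga s)) * u (some (i, t')) +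
        (∑ s, la s * (ga s * ga s * ga s)) * w (some (i, t')) = 0 := by
      intro t'
      have h1 := hcrossC (Ne.symm hne1) (Ne.symm hne2) hne3 t' tj tk
      simp only [hyo _ _ hne1, hyo _ _ hne2, hyi] at h1
      have h3 : ((∑ s, la s * (al s * ga s * ga s)) * u (some (i, t')) +
          (∑ s, la s * (ga s * ga s * ga s)) * w (some (i, t'))) *
          (w (some (i + 1, tj)) * w (some (i + 2, tk))) = 0 := by
        rw [← h1]
        simp only [Finset.sum_mul, ← Finset.sum_add_distrib]
        exact Finset.sum_congr rfl fun s _ => by ring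
      exact (mul_eq_zero.1 h3).resolve_right (mul_ne_zero htj htk)
    have hval : (∑ s, la s * (al s * ga s * ga s)) * (φ w w u + φ w u w + φ u w w) +
        (∑ s, la s * (ga s * ga s * ga s)) * φ w w w = -8 := by
      have h1 := h φ hφ
      rw [hφdef, sum_phi_vv, ← hφdef] at h1
      have h3 : ∑ s, la s * φ (y s) (y s) (y s) =
          (∑ s, la s * (al s * al s * al s)) * φ u u u +
          (∑ s, la s * (al s * al s * ga s)) * (φ u u w + φ u w u + φ w u u) +
          (∑ s, la s * (al s * ga s * ga s)) * (φ w w u + φ w u w + φ u w w) +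
          (∑ s, la s * (ga s * ga s * ga s)) * φ w w w := by
        simp only [Finset.sum_mul, ← Finset.sum_add_distrib]
        refine Finset.sum_congr rfl fun s _ => ?_
        rw [hyc s]
        simp only [map_add, map_smul, LinearMap.add_apply, LinearMap.smul_apply, smul_eq_mul]
        ring
      rw [h3, huuu, huuw] at h1
      rw [h1]
      ring
    generalize hd2 : ∑ s, la s * (al s * ga s * ga s) = d2 at hd hval
    generalize hd3 : ∑ s, la s * (ga s * ga s * ga s) = d3 at hd hval
    by_cases h30 : d3 = 0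
    · have h1 := hd ti
      rw [h30, zero_mul, add_zero] at h1
      have h20 : d2 = 0 := (mul_eq_zero.1 h1).resolve_right hti
      rw [h30, h20] at hval
      simp only [zero_mul, add_zero] at hval
      exact h8 hval.symm
    · have hw' : φ (d2 • u + d3 • w) (d2 • u + d3 • w) (d2 • u + d3 • w) = 0 := by
        apply phi_eq_zero
        intro t'
        simpa using hd t'
      simp only [map_add, map_smul, LinearMap.add_apply, LinearMap.smul_apply,
        smul_eq_mul] at hw'
      have h1 : d3 * d3 * (-8) = 0 := by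
        rw [← hval]
        linear_combination hw' - d2 * d2 * d2 * huuu - d2 * d2 * d3 * huuw
      exact (mul_ne_zero (mul_ne_zero h30 h30) h8) h1

end Pool.Agent.Lib.MP_351138_al
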