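import Mathlib

/-!
Ranks of tensors of order three over a field, as in the problem file: a tensor is an array
`T : I → J → K → F` with finite index sets.
-/

namespace Pool.Agent.Lib.MP_351138_al

/-- A tensor is simple if `T(i|j|k) = a_i b_j c_k` for some vectors `a`, `b`, `c`. -/
def IsSimple {F : Type*} [Field F] {I J K : Type} (T : I → J → K → F) : Prop :=
  ∃ (a : I → F) (b : J → F) (c : K → F), ∀ i j k, T i j k = a i * b j * c k

/-- A symmetric simple tensor is one of the form `T(i|j|k) = v_i v_j v_k`. -/
def IsSymmSimple {F : Type*} [Field F] {I : Type} (T : I → I → I → F) : Prop :=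
  ∃ v : I → F, ∀ i j k, T i j k = v i * v j * v k

/-- A tensor is symmetric if `T(i|j|k)` is invariant under all permutations of `(i,j,k)`. -/
def IsSymm {F : Type*} [Field F] {I : Type} (T : I → I → I → F) : Prop :=
  ∀ i j k, T i k j = T i j k ∧ T j i k = T i j k ∧ T j k i = T i j k ∧
    T k i j = T i j k ∧ T k j i = T i j k

/-- The rank: the least `r` such that `T` is a sum of `r` simple tensors. -/
noncomputable def rank {F : Type*} [Field F] {I J K : Type} (T : I → J → K → F) : ℕ∞ :=
  sInf {x : ℕ∞ | ∃ (r : ℕ) (S : Fin r → I → J → K → F),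
    (∀ s, IsSimple (S s)) ∧ T = ∑ s, S s ∧ x = r}

/-- The symmetric rank: the least `r` such that `T` is a linear combination of `r` symmetric
simple tensors; it is `⊤` if there is no such expression. -/
noncomputable def srank {F : Type*} [Field F] {I : Type} (T : I → I → I → F) : ℕ∞ :=
  sInf {x : ℕ∞ | ∃ (r : ℕ) (lam : Fin r → F) (S : Fin r → I → I → I → F),
    (∀ s, IsSymmSimple (S s)) ∧ T = ∑ s, lam s • S s ∧ x = r}

end Pool.Agent.Lib.MP_351138_al
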