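import Mathlib
import Pool.Agent.Lib.MP_351138_al.Defs

namespace Pool.Agent.Lib.MP_351138_al

/-- A decomposition indexed by a finite type bounds the rank. -/
theorem rank_le_of_decomp {F : Type*} [Field F] {I J K : Type} (T : I → J → K → F)
    {κ : Type} [Fintype κ] (a : κ → I → F) (b : κ → J → F) (c : κ → K → F)
    (h : ∀ i j k, T i j k = ∑ s, a s i * b s j * c s k) : rank T ≤ Fintype.card κ := by
  refine sInf_le ⟨Fintype.card κ,
    fun s i j k => a ((Fintype.equivFin κ).symm s) i * b ((Fintype.equivFin κ).symm s) j *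
      c ((Fintype.equivFin κ).symm s) k, fun s => ⟨_, _, _, fun i j k => rfl⟩, ?_, rfl⟩
  ext i j k
  rw [h]
  simp only [Finset.sum_apply]
  exact (Equiv.sum_comp (Fintype.equivFin κ).symm (fun s => a s i * b s j * c s k)).symm

/-- If there is no symmetric decomposition of length at most `r` then the symmetric rank is
larger than `r`. -/
theorem lt_srank_of_no_decomp {F : Type*} [Field F] {I : Type} (T : I → I → I → F) (r : ℕ)
    (h : ∀ r' ≤ r, ∀ (lam : Fin r' → F) (v : Fin r' → I → F),
      ¬ ∀ i j k, T i j k = ∑ s, lam s * (v s i * v s j * v s k)) : (r : ℕ∞) < srank T := by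
  have h1 : ((r + 1 : ℕ) : ℕ∞) ≤ srank T := by
    refine le_sInf ?_
    rintro x ⟨r', lam, S, hS, hT, rfl⟩
    by_contra hcon
    push Not at hcon
    have hr : r' ≤ r := by
      have := Nat.cast_lt.1 hcon
      omega
    choose v hv using hS
    apply h r' hr lam v
    intro i j k
    rw [hT]
    simp only [Finset.sum_apply, Pi.smul_apply, smul_eq_mul, hv]
  refine lt_of_lt_of_le ?_ h1
  exact_mod_cast Nat.lt_succ_self r

end Pool.Agent.Lib.MP_351138_al
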