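import Mathlib
import Pool.Agent.Lib.MP_351138_al.Contra
import Pool.Agent.Lib.MP_351138_al.DefsLemmas

namespace Pool.Agent.Lib.MP_351138_al

open Module TensorProduct

/-- The 43 coordinates. -/
abbrev CJ : Type := CI ⊕ CN

variable {F : Type*} [Field F]

/-- `v_l` extended by zero. -/
def vh (F : Type*) [Field F] (l : Fin 3) : CJ → F := Sum.elim (vv F l) 0

/-- The nodes extended by zero. -/
def nh (F : Type*) [Field F] (e : CN) : CJ → F := Sum.elim (nd F e) 0

/-- `b` extended by zero. -/
def bh (F : Type*) [Field F] : CJ → F := Sum.elim (bb F) 0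

/-- The new unit vectors. -/
def eh (F : Type*) [Field F] (e : CN) : CJ → F := Sum.elim 0 (Pi.single e 1)

/-- The tensor. -/
def TT (F : Type*) [Field F] : CJ → CJ → CJ → F := fun a b c =>
  ∑ l, vh F l a * vh F l b * vh F l c +
    ∑ e, (nh F e a * nh F e b * eh F e c + nh F e a * eh F e b * nh F e c +
      eh F e a * nh F e b * nh F e c)

theorem vh_sq (l : Fin 3) (p q : CJ) : vh F l p * vh F l q = bh F p * bh F q +
    2 * ∑ i : Fin 3, ∑ k : Fin 3, cc F (l, i, k) * (nh F (l, i, k) p * nh F (l, i, k) q) := by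
  rcases p with p | p
  · rcases q with q | q
    · exact vv_sq l p q
    · simp [vh, bh, nh]
  · simp [vh, bh, nh]

theorem rank_TT : rank (TT F) ≤ 82 := by
  have h := rank_le_of_decomp (TT F) (κ := Option (CN ⊕ CN ⊕ CN))
    (fun s => match s with
      | none => ∑ l, vh F l
      | some (Sum.inl e) => eh F e + (2 * cc F e) • vh F e.1
      | some (Sum.inr (Sum.inl e)) => nh F e
      | some (Sum.inr (Sum.inr e)) => nh F e)
    (fun s => match s with
      | none => bh F
      | some (Sum.inl e) => nh F e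
      | some (Sum.inr (Sum.inl e)) => eh F e
      | some (Sum.inr (Sum.inr e)) => nh F e)
    (fun s => match s with
      | none => bh F
      | some (Sum.inl e) => nh F e
      | some (Sum.inr (Sum.inl e)) => nh F e
      | some (Sum.inr (Sum.inr e)) => eh F e)
    (by
      intro a b c
      rw [Fintype.sum_option, Fintype.sum_sum_type, Fintype.sum_sum_type]
      simp only [TT, Finset.sum_apply, Pi.add_apply, Pi.smul_apply, smul_eq_mul]
      have h1 : ∀ l, vh F l a * vh F l b * vh F l c = vh F l a * (bh F b * bh F c) +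
          ∑ i : Fin 3, ∑ k : Fin 3, 2 * cc F (l, i, k) * vh F l a *
            (nh F (l, i, k) b * nh F (l, i, k) c) := by
        intro l
        rw [mul_assoc, vh_sq, mul_add]
        congr 1
        simp only [Finset.mul_sum]
        exact Finset.sum_congr rfl fun i _ => Finset.sum_congr rfl fun k _ => by ring
      have h2 : ∑ l, vh F l a * vh F l b * vh F l c = (∑ l, vh F l a) * bh F b * bh F c +
          ∑ e : CN, 2 * cc F e * vh F e.1 a * (nh F e b * nh F e c) := by
        simp only [h1]
        rw [Finset.sum_add_distrib, Fintype.sum_prod_type]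
        simp only [Fintype.sum_prod_type]
        congr 1
        rw [← Finset.sum_mul, mul_assoc]
      rw [h2, add_assoc]
      congr 1
      rw [← Finset.sum_add_distrib, ← Finset.sum_add_distrib, ← Finset.sum_add_distrib]
      refine Finset.sum_congr rfl fun e _ => ?_
      ring)
  have hc : Fintype.card (Option (CN ⊕ CN ⊕ CN)) = 82 := by
    simp [Fintype.card_option, Fintype.card_sum, Fintype.card_prod]
  rw [hc] at h
  exact_mod_cast h

theorem TT_rrr (e j k : CN) : TT F (Sum.inr e) (Sum.inr j) (Sum.inr k) = 0 := by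
  simp [TT, vh, nh]

theorem TT_rrl (e j : CN) (i : CI) : TT F (Sum.inr e) (Sum.inr j) (Sum.inl i) = 0 := by
  simp [TT, vh, nh]

theorem TT_rll (e : CN) (i j : CI) : TT F (Sum.inr e) (Sum.inl i) (Sum.inl j) =
    nd F e i * nd F e j := by
  simp only [TT, vh, nh, eh, Sum.elim_inl, Sum.elim_inr, Pi.zero_apply, zero_mul,
    Finset.sum_const_zero, zero_add, Pi.single_apply]
  simp

theorem TT_lll (i j k : CI) : TT F (Sum.inl i) (Sum.inl j) (Sum.inl k) =
    ∑ l, vv F l i * vv F l j * vv F l k := by
  simp [TT, vh, nh, eh]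

theorem tri_expand {I : Type} [Fintype I] [DecidableEq I]
    (φ : (I → F) →ₗ[F] (I → F) →ₗ[F] (I → F) →ₗ[F] F) (z : I → F) :
    φ z z z = ∑ i, ∑ j, ∑ k, (z i * z j * z k) *
      φ (Pi.single i 1) (Pi.single j 1) (Pi.single k 1) := by
  have h1 : z = ∑ i, z i • (Pi.single i (1 : F) : I → F) := by
    ext i
    simp [Finset.sum_apply, Pi.single_apply]
  have h2 : ∀ i j, φ (Pi.single i 1) (Pi.single j 1) z =
      ∑ k, z k * φ (Pi.single i 1) (Pi.single j 1) (Pi.single k 1) := by
    intro i j
    conv_lhs => rw [h1]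
    rw [map_sum]
    exact Finset.sum_congr rfl fun k _ => by rw [map_smul, smul_eq_mul]
  have h3 : ∀ i, φ (Pi.single i 1) z z = ∑ j, z j * φ (Pi.single i 1) (Pi.single j 1) z := by
    intro i
    conv_lhs => rw [show φ (Pi.single i 1) z z =
      φ (Pi.single i 1) (∑ i, z i • (Pi.single i (1 : F) : I → F)) z by rw [← h1]]
    rw [map_sum, LinearMap.sum_apply]
    exact Finset.sum_congr rfl fun k _ => by rw [map_smul, LinearMap.smul_apply, smul_eq_mul]
  have h4 : φ z z z = ∑ i, z i * φ (Pi.single i 1) z z := by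
    conv_lhs => rw [show φ z z z =
      φ (∑ i, z i • (Pi.single i (1 : F) : I → F)) z z by rw [← h1]]
    rw [map_sum, LinearMap.sum_apply, LinearMap.sum_apply]
    exact Finset.sum_congr rfl fun k _ => by
      rw [map_smul, LinearMap.smul_apply, LinearMap.smul_apply, smul_eq_mul]
  rw [h4]
  refine Finset.sum_congr rfl fun i _ => ?_
  rw [h3, Finset.mul_sum]
  refine Finset.sum_congr rfl fun j _ => ?_
  rw [h2, Finset.mul_sum, Finset.mul_sum]
  exact Finset.sum_congr rfl fun k _ => by ring

theorem srank_TT (h2 : (2 : F) ≠ 0) : 82 < srank (TT F) := by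
  apply lt_srank_of_no_decomp
  intro r hr lam v hv
  let w : Fin r → CI → F := fun s i => v s (Sum.inl i)
  let x : Fin r → CN → F := fun s e => v s (Sum.inr e)
  have E1 : ∀ e j, ∑ s, (lam s * x s e * x s j) • x s = 0 := by
    intro e j
    ext k
    rw [Pi.zero_apply, ← TT_rrr (F := F) e j k, hv]
    simp only [Finset.sum_apply, Pi.smul_apply, smul_eq_mul, x]
    exact Finset.sum_congr rfl fun s _ => by ring
  have E2 : ∀ e j, ∑ s, (lam s * x s e * x s j) • w s = 0 := by
    intro e j
    ext k
    rw [Pi.zero_apply, ← TT_rrl (F := F) e j k, hv]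
    simp only [Finset.sum_apply, Pi.smul_apply, smul_eq_mul, x, w]
    exact Finset.sum_congr rfl fun s _ => by ring
  have E3 : ∀ e, ∑ s, (lam s * x s e) • (w s ⊗ₜ[F] w s) = nd F e ⊗ₜ[F] nd F e := by
    intro e
    have h1 := sum_tmul_eq (fun _ : Unit => (1 : F)) (fun _ => nd F e)
    simp only [Finset.univ_unique, PUnit.default_eq_unit, Finset.sum_singleton, one_smul,
      one_mul] at h1
    rw [sum_tmul_eq, h1]
    refine Finset.sum_congr rfl fun i _ => Finset.sum_congr rfl fun j _ => ?_
    congr 1
    rw [← TT_rll, hv]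
    simp only [x, w]
    exact Finset.sum_congr rfl fun s _ => by ring
  have E4 : ∀ φ : (CI → F) →ₗ[F] (CI → F) →ₗ[F] (CI → F) →ₗ[F] F,
      ∑ s, lam s * φ (w s) (w s) (w s) = ∑ l, φ (vv F l) (vv F l) (vv F l) := by
    intro φ
    have h1 : ∑ s, lam s * φ (w s) (w s) (w s) = ∑ i, ∑ j, ∑ k,
        (∑ s, lam s * (w s i * w s j * w s k)) *
          φ (Pi.single i 1) (Pi.single j 1) (Pi.single k 1) := by
      simp only [tri_expand φ (w _), Finset.mul_sum, Finset.sum_mul]
      rw [Finset.sum_comm]
      refine Finset.sum_congr rfl fun i _ => ?_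
      rw [Finset.sum_comm]
      refine Finset.sum_congr rfl fun j _ => ?_
      rw [Finset.sum_comm]
      refine Finset.sum_congr rfl fun k _ => Finset.sum_congr rfl fun s _ => ?_
      ring
    have h3 : ∑ l, φ (vv F l) (vv F l) (vv F l) = ∑ i, ∑ j, ∑ k,
        (∑ l, vv F l i * vv F l j * vv F l k) *
          φ (Pi.single i 1) (Pi.single j 1) (Pi.single k 1) := by
      simp only [tri_expand φ (vv F _), Finset.sum_mul]
      rw [Finset.sum_comm]
      refine Finset.sum_congr rfl fun i _ => ?_
      rw [Finset.sum_comm]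
      refine Finset.sum_congr rfl fun j _ => ?_
      rw [Finset.sum_comm]
    rw [h1, h3]
    refine Finset.sum_congr rfl fun i _ => Finset.sum_congr rfl fun j _ =>
      Finset.sum_congr rfl fun k _ => ?_
    congr 1
    rw [← TT_lll, hv]
  have hcard : Fintype.card (Fin r) ≤ 3 * Fintype.card CN + 1 := by
    have : Fintype.card CN = 27 := by simp [Fintype.card_prod]
    rw [this, Fintype.card_fin]
    omega
  rcases structure_thm lam w x (nd F) nd_linearIndependent E1 E2 E3 hcard with
    ⟨a, u, hu⟩ | ⟨c, _, la, mu, y, U, hU, hy, hφ, hq, hq0⟩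
  · exact no_case_one h2 a u (fun φ h => by rw [← E4]; exact hu φ h)
  · exact no_case_two h2 la mu y U hU hy (fun φ h => by rw [← E4]; exact hφ φ h) hq hq0

theorem isSymm_TT : IsSymm (TT F) := by
  intro a b c
  simp only [TT]
  refine ⟨?_, ?_, ?_, ?_, ?_⟩ <;>
  · congr 1
    · exact Finset.sum_congr rfl fun l _ => by ring
    · exact Finset.sum_congr rfl fun l _ => by ring

end Pool.Agent.Lib.MP_351138_al
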