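import Mathlib
import Pool.Agent.Lib.MP_351138_al.DefsLemmas

namespace Pool.Agent.Lib.MP_351138_al

open Module

/-- The permanent tensor of size three. -/
def PT (F : Type*) [Field F] : Fin 3 → Fin 3 → Fin 3 → F := fun i j k =>
  if i ≠ j ∧ j ≠ k ∧ i ≠ k then 1 else 0

variable {F : Type*} [Field F]

theorem isSymm_PT : IsSymm (PT F) := by
  intro i j k
  fin_cases i <;> fin_cases j <;> fin_cases k <;> simp [PT]

theorem rank_PT (h2 : (2 : F) = 0) : rank (PT F) ≤ 5 := by
  have h := rank_le_of_decomp (PT F) (κ := Fin 5)
    (![![1, 0, 0], ![0, 1, 1], ![1, 1, 1], ![0, 0, 1], ![1, 0, 1]] : Fin 5 → Fin 3 → F)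
    (![![0, 1, 0], ![1, 0, 1], ![0, 0, 1], ![1, 1, 1], ![0, 1, 1]] : Fin 5 → Fin 3 → F)
    (![![1, 1, 0], ![0, 0, 1], ![1, 0, 1], ![0, 1, 1], ![1, 1, 1]] : Fin 5 → Fin 3 → F)
    (by
      have h3 : (1 : F) + 1 = 0 := by rw [one_add_one_eq_two]; exact h2
      intro i j k
      fin_cases i <;> fin_cases j <;> fin_cases k <;>
        simp [PT, Fin.sum_univ_succ, h3])
  rw [Fintype.card_fin] at h
  exact_mod_cast h

theorem srank_PT (h2 : (2 : F) = 0) : ((5 : ℕ) : ℕ∞) < srank (PT F) := by
  refine lt_srank_of_no_decomp (PT F) 5 ?_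
  intro r hr lam v hv
  have hchar : CharP F 2 := by
    have := CharP.exists F
    obtain ⟨p, hp⟩ := this
    have h3 : ((2 : ℕ) : F) = 0 := by exact_mod_cast h2
    have h4 := (CharP.cast_eq_zero_iff F p 2).1 h3
    have h5 : p ≠ 1 := CharP.char_ne_one F p
    have h6 : p = 2 := by
      rcases (Nat.dvd_prime Nat.prime_two).1 h4 with h | h
      · exact absurd h h5
      · exact h
    rw [← h6]
    exact hp
  -- the rows are independent
  have hrows : ∀ (K : Type _) [Field K] [Algebra F K] (a : Fin 3 → K),
      (∀ s, lam s ≠ 0 → ∑ i, a i * algebraMap F K (v s i) = 0) → ∀ i, a i = 0 := by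
    intro K _ _ a ha
    have h1 : ∀ j k, ∑ i, a i * algebraMap F K (PT F i j k) = 0 := by
      intro j k
      have h3 : ∑ i, a i * algebraMap F K (PT F i j k) = ∑ s, algebraMap F K (lam s) *
          (∑ i, a i * algebraMap F K (v s i)) * (algebraMap F K (v s j) *
            algebraMap F K (v s k)) := by
        simp only [hv, map_sum, map_mul, Finset.mul_sum, Finset.sum_mul]
        rw [Finset.sum_comm]
        exact Finset.sum_congr rfl fun s _ => Finset.sum_congr rfl fun i _ => by ring
      rw [h3]
      refine Finset.sum_eq_zero fun s _ => ?_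
      by_cases hs : lam s = 0
      · rw [hs, map_zero, zero_mul, zero_mul]
      · rw [ha s hs, mul_zero, zero_mul]
    intro i
    fin_cases i
    · have := h1 1 2
      simpa [Fin.sum_univ_three, PT] using this
    · have := h1 0 2
      simpa [Fin.sum_univ_three, PT] using this
    · have := h1 0 1
      simpa [Fin.sum_univ_three, PT] using this
  let R : Matrix (Fin 3) (Fin r) F := Matrix.of (fun i s => v s i)
  have hR : LinearIndependent F (fun i => R i) := by
    rw [Fintype.linearIndependent_iff]
    intro a ha i
    refine hrows F a (fun s _ => ?_) i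
    have := congrFun ha s
    simpa [Finset.sum_apply, R] using this
  have hRrank : R.rank = 3 := by
    have := LinearIndependent.rank_matrix (M := R) hR
    simpa using this
  let G : Fin 3 → Fin r → F := fun j s => lam s * (v s j * v s j)
  have hG : LinearIndependent F G := by
    rw [Fintype.linearIndependent_iff]
    intro b hb
    let K := AlgebraicClosure F
    have hsq : ∀ j, ∃ c : K, c ^ 2 = algebraMap F K (b j) := fun j =>
      IsAlgClosed.exists_pow_nat_eq _ (by norm_num)
    choose c hc using hsq
    have hK : CharP K 2 := charP_of_injective_algebraMap (algebraMap F K).injective 2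
    have hc0 := hrows K c (by
      intro s hs
      have h1 := congrFun hb s
      simp only [Finset.sum_apply, Pi.smul_apply, smul_eq_mul, Pi.zero_apply, G] at h1
      have h3 : ∑ j, b j * (v s j * v s j) = 0 := by
        have h4 : lam s * ∑ j, b j * (v s j * v s j) = 0 := by
          rw [← h1, Finset.mul_sum]
          exact Finset.sum_congr rfl fun j _ => by ring
        exact (mul_eq_zero.1 h4).resolve_left hs
      have h5 : (∑ j, c j * algebraMap F K (v s j)) ^ 2 = 0 := by
        rw [sum_pow_char 2]
        have h6 := congrArg (algebraMap F K) h3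
        rw [map_zero, map_sum] at h6
        rw [← h6]
        refine Finset.sum_congr rfl fun j _ => ?_
        rw [mul_pow, hc, map_mul, map_mul, sq]
      exact pow_eq_zero_iff (two_ne_zero) |>.1 h5)
    intro j
    have h7 := hc j
    rw [hc0 j] at h7
    have h8 : algebraMap F K (b j) = 0 := by
      rw [← h7]
      simp
    exact (map_eq_zero_iff _ (algebraMap F K).injective).1 h8
  -- orthogonality
  have horth : ∀ j, G j ∈ LinearMap.ker R.mulVecLin := by
    intro j
    rw [LinearMap.mem_ker]
    ext i
    have h1 := hv i j j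
    have h3 : PT F i j j = 0 := by simp [PT]
    rw [h3] at h1
    rw [Matrix.mulVecLin_apply, Matrix.mulVec, dotProduct, Pi.zero_apply, h1]
    exact Finset.sum_congr rfl fun s _ => by simp only [R, Matrix.of_apply, G]; ring
  have hker : 3 ≤ finrank F (LinearMap.ker R.mulVecLin) := by
    have h1 : Submodule.span F (Set.range G) ≤ LinearMap.ker R.mulVecLin := by
      rw [Submodule.span_le]
      rintro _ ⟨j, rfl⟩
      exact horth j
    have h3 := Submodule.finrank_mono h1
    rw [finrank_span_eq_card hG] at h3
    simpa using h3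
  have hdim := LinearMap.finrank_range_add_finrank_ker R.mulVecLin
  have h9 : finrank F (LinearMap.range R.mulVecLin) = 3 := hRrank
  rw [h9, finrank_fintype_fun_eq_card, Fintype.card_fin] at hdim
  omega

end Pool.Agent.Lib.MP_351138_al
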