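import Mathlib
import Pool.Agent.Lib.MP_351138_al.CharNeTwo
import Pool.Agent.Lib.MP_351138_al.CharTwo

namespace Pool.Agent.Lib.MP_351138_al

theorem rank_reindex_le {F : Type*} [Field F] {I J : Type} (e : J → I) (T : I → I → I → F) :
    rank (fun i j k => T (e i) (e j) (e k)) ≤ rank T := by
  refine sInf_le_sInf ?_
  rintro x ⟨r, S, hS, hT, rfl⟩
  refine ⟨r, fun s i j k => S s (e i) (e j) (e k), ?_, ?_, rfl⟩
  · intro s
    obtain ⟨a, b, c, h⟩ := hS s
    exact ⟨fun i => a (e i), fun i => b (e i), fun i => c (e i), fun i j k => h _ _ _⟩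
  · ext i j k
    rw [hT]
    simp only [Finset.sum_apply]

theorem srank_reindex_le {F : Type*} [Field F] {I J : Type} (e : J → I) (T : I → I → I → F) :
    srank (fun i j k => T (e i) (e j) (e k)) ≤ srank T := by
  refine sInf_le_sInf ?_
  rintro x ⟨r, lam, S, hS, hT, rfl⟩
  refine ⟨r, lam, fun s i j k => S s (e i) (e j) (e k), ?_, ?_, rfl⟩
  · intro s
    obtain ⟨v, h⟩ := hS s
    exact ⟨fun i => v (e i), fun i j k => h _ _ _⟩
  · ext i j k
    rw [hT]
    simp only [Finset.sum_apply, Pi.smul_apply]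

theorem main (F : Type*) [Field F] : ∃ (n : ℕ) (T : Fin n → Fin n → Fin n → F),
    IsSymm T ∧ rank T < srank T := by
  by_cases h2 : (2 : F) = 0
  · exact ⟨3, PT F, isSymm_PT, lt_of_le_of_lt (rank_PT h2) (srank_PT h2)⟩
  · let e := Fintype.equivFin CJ
    refine ⟨Fintype.card CJ, fun i j k => TT F (e.symm i) (e.symm j) (e.symm k),
      fun i j k => isSymm_TT _ _ _, ?_⟩
    refine lt_of_le_of_lt ((rank_reindex_le e.symm (TT F)).trans rank_TT)
      (lt_of_lt_of_le (srank_TT h2) ?_)
    have h := srank_reindex_le e (fun i j k => TT F (e.symm i) (e.symm j) (e.symm k))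
    simpa using h

end Pool.Agent.Lib.MP_351138_al
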